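import Mathlib

/-!
# Project PS (helper81): parity of the 2-Selmer rank, statements of the local pieces

The curve is `y² = (x - e1) (x - e2) (x - e3)`; a point `(x, y)`, `y ≠ 0`, has the classes `x - e1`,
`x - e2`, `x - e3` modulo squares.
-/

set_option autoImplicit false

namespace Pool.Agent.K1H81.PS

/-- the triple of classes `(u1, u2, u3)` comes from a point over the field `K` -/
def Lk (K : Type) [Field K] (e1 e2 e3 u1 u2 u3 : K) : Prop :=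
  ∃ x y : K, y ≠ 0 ∧ y ^ 2 = (x - e1) * (x - e2) * (x - e3) ∧
    IsSquare ((x - e1) * u1) ∧ IsSquare ((x - e2) * u2) ∧ IsSquare ((x - e3) * u3)

/-- the triples of squarefree integers with square product -/
def Tri (d1 d2 d3 : ℤ) : Prop :=
  Squarefree d1 ∧ Squarefree d2 ∧ Squarefree d3 ∧ ∃ k : ℤ, d1 * d2 * d3 = k ^ 2

/-- **MUL.** The classes of the p-adic points form a group. -/
def S_MUL : Prop := ∀ (p : ℕ) [Fact p.Prime] (e1 e2 e3 u1 u2 u3 v1 v2 v3 : ℚ_[p]),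
  e1 ≠ e2 → e1 ≠ e3 → e2 ≠ e3 → Lk ℚ_[p] e1 e2 e3 u1 u2 u3 → Lk ℚ_[p] e1 e2 e3 v1 v2 v3 →
    Lk ℚ_[p] e1 e2 e3 (u1 * v1) (u2 * v2) (u3 * v3)

/-- **TOR.** The point `(e1, 0)` and the point at infinity. -/
def S_TOR : Prop := ∀ (p : ℕ) [Fact p.Prime] (e1 e2 e3 : ℚ_[p]),
  e1 ≠ e2 → e1 ≠ e3 → e2 ≠ e3 →
    Lk ℚ_[p] e1 e2 e3 ((e1 - e2) * (e1 - e3)) (e1 - e2) (e1 - e3) ∧ Lk ℚ_[p] e1 e2 e3 1 1 1

/-- the local condition at an odd prime of multiplicative reduction where `e1`, `e2` collide -/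
def Co (p : ℕ) (e1 e2 e3 d1 d3 : ℤ) : Prop :=
  ¬ (p : ℤ) ∣ d3 ∧ (if jacobiSym (e1 - e3) p = 1 then jacobiSym d3 p = 1
    else ((p : ℤ) ∣ d1 ↔ (Odd (padicValInt p (e1 - e2)) ∧ jacobiSym d3 p = -1)))

/-- **ODDN** (necessity at an odd prime). -/
def S_ODDN : Prop := ∀ (p : ℕ) [Fact p.Prime] (e1 e2 e3 d1 d2 d3 : ℤ), p ≠ 2 → e1 ≠ e2 →
  (p : ℤ) ∣ e1 - e2 → ¬ (p : ℤ) ∣ e1 - e3 → Tri d1 d2 d3 →
    Lk ℚ_[p] e1 e2 e3 d1 d2 d3 → Co p e1 e2 e3 d1 d3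

/-- **ODDS** (sufficiency at an odd prime). -/
def S_ODDS : Prop := S_MUL → S_TOR → ∀ (p : ℕ) [Fact p.Prime] (e1 e2 e3 d1 d2 d3 : ℤ), p ≠ 2 →
  e1 ≠ e2 → (p : ℤ) ∣ e1 - e2 → ¬ (p : ℤ) ∣ e1 - e3 → Tri d1 d2 d3 →
    Co p e1 e2 e3 d1 d3 → Lk ℚ_[p] e1 e2 e3 d1 d2 d3

/-- the local condition at 2 for the roots `0`, `-b`, `16 c` -/
def C2 (b c d1 d2 : ℤ) : Prop :=
  d2 % 4 = 1 ∧ (if c % 2 = 1 then ¬ (2 : ℤ) ∣ d1 else if b % 8 = 1 then d2 % 8 = 1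
    else ((2 : ℤ) ∣ d1 ↔ (Odd (padicValInt 2 c) ∧ d2 % 8 = 5)))

/-- **TWON** (necessity at 2). -/
def S_TWON : Prop := ∀ (b c d1 d2 d3 : ℤ), b % 4 = 1 → c ≠ 0 → b + 16 * c ≠ 0 → Tri d1 d2 d3 →
  ∀ [Fact (Nat.Prime 2)], Lk ℚ_[2] 0 (-b : ℤ) (16 * c : ℤ) d1 d2 d3 → C2 b c d1 d2

/-- **TWOS** (sufficiency at 2). -/
def S_TWOS : Prop := S_MUL → S_TOR → ∀ (b c d1 d2 d3 : ℤ), b % 4 = 1 → c ≠ 0 →
  b + 16 * c ≠ 0 → Tri d1 d2 d3 → C2 b c d1 d2 →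
  ∀ [Fact (Nat.Prime 2)], Lk ℚ_[2] 0 (-b : ℤ) (16 * c : ℤ) d1 d2 d3

/-- **REAL.** -/
def S_REAL : Prop := ∀ (b c d1 d2 d3 : ℤ), b ≠ 0 → 0 < c → b + 16 * c ≠ 0 → Tri d1 d2 d3 →
  (Lk ℝ 0 (-b : ℤ) (16 * c : ℤ) d1 d2 d3 ↔ (if 0 < b then 0 < d2 else 0 < d1))

end Pool.Agent.K1H81.PS
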