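import Pool.Agent.K1H81.PS.Ent
import Pool.Agent.K1H81.PS.Stm

/-!
# The classes attached to a vector (helper81)
-/

set_option autoImplicit false

namespace Pool.Agent.K1H81.PS

open Finset Pool.Agent.K1H81.RN

/-- the weights of the signs of the three classes -/
def sw (b : ℤ) (g : ℕ) : ZMod 2 := if g = 0 then 1 + sg b else if g = 1 then 1 else sg b

/-- extension by zero -/
def xx {b c : ℤ} (x : Option (JJ b c) → ZMod 2) (q : ℕ) : ZMod 2 :=
  if h : q ∈ JJ b c then x (some ⟨q, h⟩) else 0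

/-- the primes of a class -/
def SS {b c : ℤ} (g : ℕ) (x : Option (JJ b c) → ZMod 2) : Finset ℕ :=
  (JJ b c).filter (fun q => gr b c q ≠ g ∧ xx x q = 1)

/-- the classes -/
def DD {b c : ℤ} (x : Option (JJ b c) → ZMod 2) (g : ℕ) : ℤ :=
  sn (sw b g * x none) * ((∏ q ∈ SS g x, q : ℕ) : ℤ)

lemma xx_some {b c : ℤ} (x : Option (JJ b c) → ZMod 2) (q : JJ b c) : xx x q = x (some q) := by
  unfold xx
  rw [dif_pos q.2]

lemma xx_J {b c : ℤ} {x : Option (JJ b c) → ZMod 2} {q : ℕ} (h : xx x q = 1) : q ∈ JJ b c := by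
  unfold xx at h
  by_contra hq
  rw [dif_neg hq] at h
  exact absurd h (by decide)

lemma SS_prime {b c : ℤ} (h : Adm b c) {g : ℕ} {x : Option (JJ b c) → ZMod 2} {q : ℕ}
    (hq : q ∈ SS g x) : q.Prime :=
  ((mem_PP h).1 (J_mem (mem_filter.1 hq).1)).1

lemma dvd_prod {p : ℕ} (hp : p.Prime) {S : Finset ℕ} (hS : ∀ q ∈ S, q.Prime) :
    p ∣ ∏ q ∈ S, q ↔ p ∈ S := by
  rw [Prime.dvd_finsetProd_iff hp.prime]
  constructor
  · rintro ⟨q, hq, hd⟩
    rw [(Nat.prime_dvd_prime_iff_eq hp (hS q hq)).1 hd]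
    exact hq
  · intro h
    exact ⟨p, h, dvd_rfl⟩

lemma sqf_prod {S : Finset ℕ} (hS : ∀ q ∈ S, q.Prime) : Squarefree (∏ q ∈ S, q) := by
  classical
  induction S using Finset.induction_on with
  | empty => rw [prod_empty]; exact squarefree_one
  | insert a S ha ih =>
    have hS' : ∀ q ∈ S, q.Prime := fun q hq => hS q (mem_insert_of_mem hq)
    have hpa := hS a (mem_insert_self _ _)
    rw [prod_insert ha, Nat.squarefree_mul ((hpa.coprime_iff_not_dvd).2 fun h =>
      ha ((dvd_prod hpa hS').1 h))]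
    exact ⟨hpa.prime.squarefree, ih hS'⟩

lemma sn_abs (u : ZMod 2) : (sn u).natAbs = 1 := by
  revert u; decide

lemma DD_abs {b c : ℤ} (x : Option (JJ b c) → ZMod 2) (g : ℕ) : (DD x g).natAbs = ∏ q ∈ SS g x, q := by
  unfold DD
  rw [Int.natAbs_mul, sn_abs, one_mul, Int.natAbs_natCast]

lemma DD_sqf {b c : ℤ} (h : Adm b c) (x : Option (JJ b c) → ZMod 2) (g : ℕ) : Squarefree (DD x g) := by
  rw [← Int.squarefree_natAbs, DD_abs]
  exact sqf_prod fun q hq => SS_prime h hq

lemma DD_dvd {b c : ℤ} (h : Adm b c) (x : Option (JJ b c) → ZMod 2) (g : ℕ) {p : ℕ} (hp : p.Prime) :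
    (p : ℤ) ∣ DD x g ↔ (gr b c p ≠ g ∧ xx x p = 1) := by
  rw [Int.natCast_dvd, DD_abs, dvd_prod hp fun q hq => SS_prime h hq]
  unfold SS
  rw [mem_filter]
  exact ⟨fun h => h.2, fun h => ⟨xx_J h.2, h⟩⟩

lemma prod_pos_SS {b c : ℤ} (h : Adm b c) (x : Option (JJ b c) → ZMod 2) (g : ℕ) :
    (0 : ℤ) < ((∏ q ∈ SS g x, q : ℕ) : ℤ) := by
  exact_mod_cast prod_pos fun q hq => (SS_prime h hq).pos

lemma DD_sg {b c : ℤ} (h : Adm b c) (x : Option (JJ b c) → ZMod 2) (g : ℕ) :
    sg (DD x g) = sw b g * x none := by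
  have h0 := prod_pos_SS h x g
  unfold DD
  rcases z2 (sw b g * x none) with h1 | h1
  · rw [h1]
    have : sn 0 = 1 := by decide
    rw [this, one_mul]
    exact sg_pos h0
  · rw [h1]
    have : sn 1 = -1 := by decide
    rw [this]
    unfold sg
    rw [if_pos (by linarith)]

lemma ps_sn {p : ℕ} (hp : p.Prime) (u : ZMod 2) : ¬ (p : ℤ) ∣ sn u ∧ ps p (sn u) = u * e4 p := by
  have h1 : ∀ {v : ℤ}, IsUnit v → ¬ (p : ℤ) ∣ v := fun hv h =>
    (Nat.prime_iff_prime_int.1 hp).not_isUnit (isUnit_of_dvd_unit h hv)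
  rcases z2 u with h | h
  · rw [h]
    have : sn 0 = 1 := by decide
    rw [this, ps_one, zero_mul]
    exact ⟨h1 (by norm_num), rfl⟩
  · rw [h]
    have : sn 1 = -1 := by decide
    rw [this, ps_neg_one hp, one_mul]
    exact ⟨h1 (by norm_num), rfl⟩

/-- the symbols of the classes -/
lemma DD_ps {b c : ℤ} (h : Adm b c) (x : Option (JJ b c) → ZMod 2) {p : ℕ} (hp : p.Prime) :
    ps p (DD x (gr b c p)) = sw b (gr b c p) * x none * e4 (p : ℕ) +
      ∑ q ∈ JJ b c, (if gr b c p ≠ gr b c q then ps p (q : ℕ) else 0) * xx x q := by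
  have h1 := ps_prod hp (SS (gr b c p) x) (fun q hq => ⟨SS_prime h hq, by
    rintro rfl
    exact (mem_filter.1 hq).2.1 rfl⟩) (fun _ => 1)
  simp only [pow_one, Nat.cast_one, one_mul] at h1
  obtain ⟨h2, h3⟩ := ps_sn hp (sw b (gr b c p) * x none)
  unfold DD
  rw [ps_mul hp h2 h1.1, h3, h1.2]
  congr 1
  unfold SS
  rw [sum_filter]
  refine sum_congr rfl fun q _ => ?_
  rcases z2 (xx x q) with h4 | h4
  · rw [h4, if_neg (fun h => absurd h.2 (by decide)), mul_zero]
  · rw [h4, mul_one]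
    by_cases h5 : gr b c p = gr b c q
    · rw [if_neg (fun h => h.1 h5.symm), if_neg (not_not.2 h5)]
    · rw [if_pos ⟨fun h => h5 h.symm, rfl⟩, if_pos h5]

/-- the class `DD 2` modulo four -/
lemma DD_e4 {b c : ℤ} (h : Adm b c) (x : Option (JJ b c) → ZMod 2) :
    DD x 2 % 2 = 1 ∧ e4 (DD x 2) = sg b * x none + ∑ q ∈ JJ b c, ga b c q * e4 (q : ℕ) * xx x q := by
  have h1 := e4_prod (SS 2 x) (fun q hq => ⟨SS_prime h hq, by
    rintro rfl
    exact (mem_filter.1 hq).2.1 (gr_two h)⟩) (fun _ => 1)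
  simp only [pow_one, Nat.cast_one, one_mul] at h1
  have hs : sn (sw b 2 * x none) % 2 = 1 ∧ e4 (sn (sw b 2 * x none)) = sw b 2 * x none := by
    generalize sw b 2 * x none = u
    revert u
    decide
  unfold DD
  refine ⟨by rw [Int.mul_emod, hs.1, h1.1]; norm_num, ?_⟩
  rw [e4_mul hs.1 h1.1, hs.2, h1.2]
  congr 1
  unfold SS
  rw [sum_filter]
  refine sum_congr rfl fun q _ => ?_
  unfold ga
  rcases z2 (xx x q) with h4 | h4
  · rw [h4, if_neg (fun h => absurd h.2 (by decide)), mul_zero]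
  · rw [h4, mul_one]
    by_cases h5 : gr b c q = 2
    · rw [if_neg (fun h => h.1 h5), if_pos h5, zero_mul]
    · rw [if_pos ⟨h5, rfl⟩, if_neg h5, one_mul]

/-- **The kernel in terms of the classes.** -/
theorem ker_iff {b c : ℤ} (h : Adm b c) (x : Option (JJ b c) → ZMod 2) :
    x ∈ Ker (Mx b c) ↔ (e4 (DD x 2) = 0 ∧
      ∀ p ∈ JJ b c, ps p (DD x (gr b c p)) + ns b c p * xx x p = 0) := by
  rw [mem_Ker]
  have r0 : ∑ j, Mx b c none j * x j = e4 (DD x 2) := by
    rw [sum_opt _ (fun q => ga b c q * e4 (q : ℕ) * xx x q) (fun q => by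
      show ga b c q * e4 (q : ℕ) * x (some q) = _
      rw [xx_some]), (DD_e4 h x).2]
    rfl
  have rp : ∀ p : JJ b c, ∑ j, Mx b c (some p) j * x j =
      ps p (DD x (gr b c p)) + ns b c p * xx x p + be b c p * e4 (p : ℕ) * e4 (DD x 2) := by
    rintro ⟨p, hp⟩
    have hpP := J_mem hp
    rw [sum_opt _ (fun q => (if gr b c p ≠ gr b c q then ps p (q : ℕ) else 0) * xx x q +
      be b c p * e4 (p : ℕ) * (ga b c q * e4 (q : ℕ) * xx x q) +
      (if p = q then ns b c p * xx x p else 0)) (fun q => by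
      show ((if gr b c p ≠ gr b c q then ps p (q : ℕ) else 0) +
        be b c p * e4 (p : ℕ) * (ga b c q * e4 (q : ℕ)) +
        (if (⟨p, hp⟩ : JJ b c) = q then ns b c p else 0)) * x (some q) = _
      rw [xx_some]
      by_cases hpq : p = q
      · have n1 : (⟨p, hp⟩ : JJ b c) = q := Subtype.ext hpq
        have e := xx_some x (⟨p, hp⟩ : JJ b c)
        rw [if_pos n1, if_pos hpq, ← n1, ← e]
        ring
      · have n1 : ¬ (⟨p, hp⟩ : JJ b c) = q := fun h => hpq (congrArg Subtype.val h)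
        rw [if_neg n1, if_neg hpq]
        ring), sum_add_distrib, sum_add_distrib, ← mul_sum, sum_ite_eq, if_pos hp,
        DD_ps h x ((mem_PP h).1 hpP).1, (DD_e4 h x).2]
    show ga b c p * e4 (p : ℕ) * x none + _ = _
    generalize ∑ q ∈ JJ b c, ga b c q * e4 (q : ℕ) * xx x q = B
    unfold sw be ga
    rcases gr_spec h hpP with ⟨g1, -⟩ | ⟨g1, -⟩ | ⟨g1, -⟩
    · rw [g1]
      generalize ∑ q ∈ JJ b c, (if 0 ≠ gr b c q then ps p (q : ℕ) else 0) * xx x q = A
      generalize ns b c p * xx x p = C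
      generalize e4 (p : ℕ) = s
      generalize sg b = y
      generalize x none = t
      revert A B C s y t
      decide
    · rw [g1]
      generalize ∑ q ∈ JJ b c, (if 1 ≠ gr b c q then ps p (q : ℕ) else 0) * xx x q = A
      generalize ns b c p * xx x p = C
      generalize e4 (p : ℕ) = s
      generalize sg b = y
      generalize x none = t
      revert A B C s y t
      decide
    · rw [g1]
      generalize ∑ q ∈ JJ b c, (if 2 ≠ gr b c q then ps p (q : ℕ) else 0) * xx x q = A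
      generalize ns b c p * xx x p = C
      generalize e4 (p : ℕ) = s
      generalize sg b = y
      generalize x none = t
      revert A B C s y t
      decide
  constructor
  · intro hx
    have h0 : e4 (DD x 2) = 0 := by rw [← r0]; exact hx none
    refine ⟨h0, fun p hp => ?_⟩
    have h1 := hx (some ⟨p, hp⟩)
    rw [rp, h0, mul_zero, add_zero] at h1
    exact h1
  · rintro ⟨h0, h1⟩ i
    rcases i with _ | ⟨p, hp⟩
    · rw [r0, h0]
    · rw [rp, h0, mul_zero, add_zero]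
      exact h1 p hp

end Pool.Agent.K1H81.PS
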