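import Pool.Agent.Y212.RZ.Lag0

/-!
# Parity of the corank of a symmetric matrix over the field with two elements (helper81)
-/

set_option autoImplicit false

namespace Pool.Agent.K1H81.PS

open Finset Module

variable {I : Type} [Fintype I] [DecidableEq I]

/-- the kernel of a matrix -/
def Ker (M : I → I → ZMod 2) : Submodule (ZMod 2) (I → ZMod 2) where
  carrier := {x | ∀ i, ∑ j, M i j * x j = 0}
  add_mem' := by
    intro x y hx hy i
    simp only [Pi.add_apply, mul_add, sum_add_distrib]
    rw [hx i, hy i, add_zero]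
  zero_mem' := by intro i; simp
  smul_mem' := by
    intro c x hx i
    have : ∑ j, M i j * (c • x) j = c * ∑ j, M i j * x j := by
      rw [mul_sum]
      exact sum_congr rfl fun j _ => by simp only [Pi.smul_apply, smul_eq_mul]; ring
    rw [this, hx i, mul_zero]

lemma mem_Ker {M : I → I → ZMod 2} {x : I → ZMod 2} : x ∈ Ker M ↔ ∀ i, ∑ j, M i j * x j = 0 :=
  Iff.rfl

/-- the bilinear form of a matrix -/
noncomputable def bf (M : I → I → ZMod 2) :
    (I → ZMod 2) →ₗ[ZMod 2] (I → ZMod 2) →ₗ[ZMod 2] ZMod 2 :=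
  LinearMap.mk₂ (ZMod 2) (fun x y => ∑ i, ∑ j, M i j * x j * y i)
    (fun x x' y => by
      simp only [Pi.add_apply, mul_add, add_mul, sum_add_distrib])
    (fun c x y => by
      simp only [Pi.smul_apply, smul_eq_mul, mul_sum]
      exact sum_congr rfl fun i _ => sum_congr rfl fun j _ => by ring)
    (fun x y y' => by
      simp only [Pi.add_apply, mul_add, sum_add_distrib])
    (fun c x y => by
      simp only [Pi.smul_apply, smul_eq_mul, mul_sum]
      exact sum_congr rfl fun i _ => sum_congr rfl fun j _ => by ring)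

lemma bf_apply (M : I → I → ZMod 2) (x y : I → ZMod 2) :
    bf M x y = ∑ i, ∑ j, M i j * x j * y i := rfl

lemma bf_single (M : I → I → ZMod 2) (x : I → ZMod 2) (i : I) :
    bf M x (Pi.single i 1) = ∑ j, M i j * x j := by
  rw [bf_apply, sum_eq_single i]
  · simp
  · intro k _ hk
    refine sum_eq_zero fun j _ => ?_
    rw [Pi.single_eq_of_ne hk, mul_zero]
  · intro h; exact absurd (mem_univ i) h

lemma sum_sym {M : I → I → ZMod 2} (hs : ∀ i j, M i j = M j i) (x : I → ZMod 2) :
    ∑ i, ∑ j, M i j * x j * x i = ∑ i, M i i * x i := by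
  have key : ∀ S : Finset I, ∑ i ∈ S, ∑ j ∈ S, M i j * x j * x i = ∑ i ∈ S, M i i * x i := by
    intro S
    induction S using Finset.induction_on with
    | empty => simp
    | insert a S ha ih =>
      rw [sum_insert ha, sum_insert ha]
      have h1 : ∑ i ∈ S, ∑ j ∈ insert a S, M i j * x j * x i =
          ∑ i ∈ S, M i a * x a * x i + ∑ i ∈ S, ∑ j ∈ S, M i j * x j * x i := by
        rw [← sum_add_distrib]
        exact sum_congr rfl fun i _ => sum_insert ha
      rw [h1, ih, sum_insert ha]
      have h2 : ∑ j ∈ S, M a j * x j * x a = ∑ i ∈ S, M i a * x a * x i :=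
        sum_congr rfl fun j _ => by rw [hs a j]; ring
      rw [h2]
      have h3 : M a a * x a * x a = M a a * x a := by
        have : ∀ u : ZMod 2, u * u = u := by decide
        rw [mul_assoc, this]
      rw [h3]
      have h4 : ∀ u v w : ZMod 2, v + u + (u + w) = v + w := by decide
      exact h4 _ _ _
  exact key univ

/-- **The parity of the corank.** -/
theorem corank {M : I → I → ZMod 2} (hs : ∀ i j, M i j = M j i) {z : I → ZMod 2}
    (hz : ∀ i, ∑ j, M i j * z j = M i i) :
    ∃ k : ℕ, Nat.card (Ker M) = 2 ^ k ∧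
      ((k : ℕ) : ZMod 2) = Fintype.card I + ∑ i, M i i * z i := by
  classical
  have two : ∀ u : ZMod 2, u + u = 0 := by decide
  have sq : ∀ u : ZMod 2, u * u = u := by decide
  obtain ⟨D, hD⟩ : ∃ D : (I → ZMod 2) → ZMod 2, D = fun x => ∑ i, M i i * x i := ⟨_, rfl⟩
  have hDK : ∀ x ∈ Ker M, D x = 0 := by
    intro x hx
    rw [hD]
    simp only
    have h1 : ∑ i, M i i * x i = ∑ i, (∑ j, M i j * z j) * x i :=
      sum_congr rfl fun i _ => by rw [hz i]
    rw [h1]
    simp only [sum_mul]
    rw [sum_comm]
    refine sum_eq_zero fun j _ => ?_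
    have h2 : ∑ i, M i j * z j * x i = z j * ∑ i, M j i * x i := by
      rw [mul_sum]
      exact sum_congr rfl fun i _ => by rw [hs i j]; ring
    rw [h2, hx j, mul_zero]
  -- the alternating form
  obtain ⟨M', hM'⟩ : ∃ M' : I → I → ZMod 2, M' = fun i j => M i j + M i i * M j j := ⟨_, rfl⟩
  have hrow : ∀ (x : I → ZMod 2) (i : I), ∑ j, M' i j * x j = ∑ j, M i j * x j + M i i * D x := by
    intro x i
    rw [hM', hD]
    simp only [add_mul, sum_add_distrib, mul_sum]
    congr 1
    exact sum_congr rfl fun j _ => by ring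
  have halt : ∀ x : I → ZMod 2, bf M' x x = 0 := by
    intro x
    rw [bf_apply, sum_sym (M := M')]
    · rw [hM']
      refine sum_eq_zero fun i _ => ?_
      simp only
      rw [sq, two, zero_mul]
    · intro i j
      rw [hM']
      simp only
      rw [hs i j]
      ring
  have hev := Pool.Agent.Y212.RZ.even_rad (bf M') _ ⊤ rfl (fun p _ => halt p)
  have hrad : Pool.Agent.Y212.RZ.rad (bf M') ⊤ = Ker M' := by
    ext x
    rw [Pool.Agent.Y212.RZ.mem_rad, mem_Ker]
    constructor
    · rintro ⟨-, h⟩ i
      rw [← bf_single]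
      exact h _ Submodule.mem_top
    · intro h
      refine ⟨Submodule.mem_top, fun y _ => ?_⟩
      rw [bf_apply]
      refine sum_eq_zero fun i _ => ?_
      rw [← sum_mul, h i, zero_mul]
  have hV : finrank (ZMod 2) (⊤ : Submodule (ZMod 2) (I → ZMod 2)) = Fintype.card I := by
    rw [finrank_top, finrank_fintype_fun_eq_card]
  rw [hrad, hV] at hev
  have hcardK : Nat.card (Ker M) = 2 ^ finrank (ZMod 2) (Ker M) := by
    rw [Nat.card_eq_fintype_card, card_eq_pow_finrank (K := ZMod 2), ZMod.card]
  have hcardK' : Nat.card (Ker M') = 2 ^ finrank (ZMod 2) (Ker M') := by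
    rw [Nat.card_eq_fintype_card, card_eq_pow_finrank (K := ZMod 2), ZMod.card]
  have hK'K : ∀ x, x ∈ Ker M' ↔ ((D x = 0 ∧ x ∈ Ker M) ∨ (D x = 1 ∧ x + z ∈ Ker M)) := by
    intro x
    have h01 : ∀ u : ZMod 2, u = 0 ∨ u = 1 := by decide
    rw [mem_Ker]
    simp only [hrow]
    rcases h01 (D x) with h | h
    · rw [h]
      simp only [mul_zero, add_zero]
      constructor
      · intro h1; exact Or.inl ⟨trivial, h1⟩
      · rintro (⟨-, h1⟩ | ⟨h1, -⟩)
        · exact h1
        · exact absurd h1 (by decide)
    · rw [h]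
      simp only [mul_one]
      have e : ∀ i, ∑ j, M i j * (x + z) j = ∑ j, M i j * x j + M i i := by
        intro i
        simp only [Pi.add_apply, mul_add, sum_add_distrib]
        rw [hz i]
      constructor
      · intro h1
        refine Or.inr ⟨trivial, fun i => ?_⟩
        rw [e i]
        exact h1 i
      · rintro (⟨h1, -⟩ | ⟨-, h1⟩)
        · exact absurd h1 (by decide)
        · intro i
          rw [← e i]
          exact h1 i
  have hDadd : ∀ x y, D (x + y) = D x + D y := by
    intro x y
    rw [hD]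
    simp only [Pi.add_apply, mul_add, sum_add_distrib]
  refine ⟨finrank (ZMod 2) (Ker M), hcardK, ?_⟩
  have hDz : D z = ∑ i, M i i * z i := by rw [hD]
  rw [← hDz]
  have h01 : ∀ u : ZMod 2, u = 0 ∨ u = 1 := by decide
  have hev' : ((Fintype.card I + finrank (ZMod 2) (Ker M') : ℕ) : ZMod 2) = 0 :=
    (ZMod.natCast_eq_zero_iff _ 2).2 (even_iff_two_dvd.1 hev)
  push_cast at hev'
  rcases h01 (D z) with h | h
  · have : Ker M' = Ker M := by
      ext x
      rw [hK'K]
      constructor
      · rintro (⟨-, h1⟩ | ⟨h1, h2⟩)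
        · exact h1
        · exfalso
          have := hDK _ h2
          rw [hDadd, h1, h] at this
          exact absurd this (by decide)
      · intro h1
        exact Or.inl ⟨hDK _ h1, h1⟩
    rw [this] at hev'
    rw [h, add_zero]
    have h4 : ∀ u v : ZMod 2, u + v = 0 → v = u := by decide
    exact h4 _ _ hev'
  · -- the kernel of `M'` is twice as large
    have hcard : Nat.card (Ker M') = 2 * Nat.card (Ker M) := by
      obtain ⟨KM, hKM⟩ : ∃ KM : Finset (I → ZMod 2), KM = univ.filter (fun x => x ∈ Ker M) := ⟨_, rfl⟩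
      have c1 : Nat.card (Ker M) = KM.card := by
        rw [hKM, Nat.card_eq_fintype_card, Fintype.card_subtype]
      have c2 : Nat.card (Ker M') = (univ.filter (fun x => x ∈ Ker M')).card := by
        rw [Nat.card_eq_fintype_card, Fintype.card_subtype]
      have zz : z + z = 0 := by
        funext i
        exact two _
      have e : univ.filter (fun x => x ∈ Ker M') = KM ∪ KM.image (fun x => x + z) := by
        ext x
        rw [mem_filter, mem_union, mem_image, hK'K, hKM, mem_filter]
        constructor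
        · rintro ⟨-, ⟨-, h1⟩ | ⟨-, h1⟩⟩
          · exact Or.inl ⟨mem_univ _, h1⟩
          · refine Or.inr ⟨x + z, mem_filter.2 ⟨mem_univ _, h1⟩, ?_⟩
            rw [add_assoc, zz, add_zero]
        · rintro (⟨-, h1⟩ | ⟨y, hy, rfl⟩)
          · exact ⟨mem_univ _, Or.inl ⟨hDK _ h1, h1⟩⟩
          · have hy' := (mem_filter.1 hy).2
            refine ⟨mem_univ _, Or.inr ⟨?_, ?_⟩⟩
            · rw [hDadd, hDK _ hy', h, zero_add]
            · rw [add_assoc, zz, add_zero]
              exact hy'
      rw [c1, c2, e, card_union_of_disjoint, card_image_of_injective _ (add_left_injective z)]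
      · ring
      · rw [disjoint_left]
        intro x hx hx'
        obtain ⟨y, hy, rfl⟩ := mem_image.1 hx'
        rw [hKM] at hx hy
        have h1 := hDK _ (mem_filter.1 hx).2
        have h2 := hDK _ (mem_filter.1 hy).2
        rw [hDadd, h2, h] at h1
        exact absurd h1 (by decide)
    rw [hcardK, hcardK', ← pow_succ'] at hcard
    have h5 : finrank (ZMod 2) (Ker M') = finrank (ZMod 2) (Ker M) + 1 :=
      Nat.pow_right_injective (le_refl 2) hcard
    rw [h5] at hev'
    push_cast at hev'
    rw [h]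
    have h6 : ∀ u v : ZMod 2, u + (v + 1) = 0 → v = u + 1 := by decide
    exact h6 _ _ hev'

end Pool.Agent.K1H81.PS
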