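import Pool.Agent.K1H81.PS.Psi
import Pool.Agent.K1H81.PS.Lin
import Pool.Agent.K1H81.RN.Box

/-!
# The matrix of the 2-descent and the parity of its corank (helper81)
-/

set_option autoImplicit false

namespace Pool.Agent.K1H81.PS

open Finset Pool.Agent.K1H81.RN

/-- which of `b + 16 c`, `b`, `c` is divisible by `p` -/
def gr (b c : ℤ) (p : ℕ) : ℕ := if (p : ℤ) ∣ b + 16 * c then 0 else if (p : ℤ) ∣ b then 1 else 2

/-- the integer whose symbol decides whether the reduction is split -/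
def xs (b c : ℤ) (g : ℕ) : ℤ := if g = 0 then -b else if g = 1 then -(b + 16 * c) else b

/-- the product of the three parameters -/
def abc (b c : ℤ) : ℤ := (b + 16 * c) * b * c

/-- the bad primes -/
def PP (b c : ℤ) : Finset ℕ := (abc b c).natAbs.primeFactors

/-- the valuation of the product -/
def vv (b c : ℤ) (p : ℕ) : ZMod 2 := (((abc b c).natAbs.factorization p : ℕ) : ZMod 2)

/-- `1` at the nonsplit primes -/
def ns (b c : ℤ) (p : ℕ) : ZMod 2 := if kap (xs b c (gr b c p)) p = 1 then 0 else 1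

/-- the primes which matter -/
def JJ (b c : ℤ) : Finset ℕ := (PP b c).filter (fun p => ns b c p = 0 ∨ vv b c p = 1)

/-- `1` for the negative integers -/
def sg (n : ℤ) : ZMod 2 := if n < 0 then 1 else 0

/-- first weight -/
def be (b c : ℤ) (p : ℕ) : ZMod 2 := if gr b c p = 1 then 0 else 1

/-- second weight -/
def ga (b c : ℤ) (p : ℕ) : ZMod 2 := if gr b c p = 2 then 0 else 1

/-- the matrix -/
def Mx (b c : ℤ) : Option (JJ b c) → Option (JJ b c) → ZMod 2
  | none, none => sg b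
  | none, some q => ga b c q * e4 (q : ℕ)
  | some p, none => ga b c p * e4 (p : ℕ)
  | some p, some q => (if gr b c p ≠ gr b c q then ps p (q : ℕ) else 0) +
      be b c p * e4 (p : ℕ) * (ga b c q * e4 (q : ℕ)) + (if p = q then ns b c p else 0)

/-- the weighted sum over the prime factors -/
def Sm (n : ℤ) (G : ℕ → ZMod 2) : ZMod 2 :=
  ∑ q ∈ n.natAbs.primeFactors, ((n.natAbs.factorization q : ℕ) : ZMod 2) * G q

lemma Sm_mul {m n : ℤ} (hm : m ≠ 0) (hn : n ≠ 0) (G : ℕ → ZMod 2) :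
    Sm (m * n) G = Sm m G + Sm n G := by
  have key : ∀ n : ℤ, Sm n G =
      n.natAbs.factorization.sum (fun q k => ((k : ℕ) : ZMod 2) * G q) := fun n => rfl
  rw [key, key, key, Int.natAbs_mul,
    Nat.factorization_mul (Int.natAbs_ne_zero.2 hm) (Int.natAbs_ne_zero.2 hn)]
  apply Finsupp.sum_add_index'
  · intro q; simp
  · intro q k l; push_cast; ring

lemma Sm_congr {n : ℤ} {G G' : ℕ → ZMod 2} (h : ∀ q : ℕ, q.Prime → (q : ℤ) ∣ n → G q = G' q) :
    Sm n G = Sm n G' := by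
  unfold Sm
  refine sum_congr rfl fun q hq => ?_
  rw [h q (mem_pf hq).1 (mem_pf hq).2]

lemma Sm_zero {n : ℤ} {G : ℕ → ZMod 2} (h : ∀ q : ℕ, q.Prime → (q : ℤ) ∣ n → G q = 0) :
    Sm n G = 0 := by
  unfold Sm
  refine sum_eq_zero fun q hq => ?_
  rw [h q (mem_pf hq).1 (mem_pf hq).2, mul_zero]

lemma Adm.bc {b c : ℤ} (h : Adm b c) : IsCoprime b c := h.2.2.2

lemma Adm.bz {b c : ℤ} (h : Adm b c) : b ≠ 0 := by
  have := h.1
  omega

lemma not_both {p : ℕ} (hp : p.Prime) {m n : ℤ} (h : IsCoprime m n) (h1 : (p : ℤ) ∣ m) :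
    ¬ (p : ℤ) ∣ n := fun h2 =>
  (Nat.prime_iff_prime_int.1 hp).not_isUnit (h.isUnit_of_dvd' h1 h2)

lemma gr_a {b c : ℤ} {p : ℕ} (hd : (p : ℤ) ∣ b + 16 * c) : gr b c p = 0 := by
  unfold gr
  rw [if_pos hd]

lemma gr_b {b c : ℤ} (h : Adm b c) {p : ℕ} (hp : p.Prime) (hd : (p : ℤ) ∣ b) : gr b c p = 1 := by
  unfold gr
  rw [if_neg (not_both hp h.ab.symm hd), if_pos hd]

lemma gr_c {b c : ℤ} (h : Adm b c) {p : ℕ} (hp : p.Prime) (hd : (p : ℤ) ∣ c) : gr b c p = 2 := by
  unfold gr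
  rw [if_neg (not_both hp h.ac.symm hd), if_neg (not_both hp h.2.2.2.symm hd)]

lemma abc_ne {b c : ℤ} (h : Adm b c) : abc b c ≠ 0 :=
  mul_ne_zero (mul_ne_zero h.2.2.1 (Adm.bz h)) h.2.1

lemma mem_PP {b c : ℤ} (h : Adm b c) {p : ℕ} : p ∈ PP b c ↔ p.Prime ∧ (p : ℤ) ∣ abc b c := by
  unfold PP
  rw [Nat.mem_primeFactors_of_ne_zero (Int.natAbs_ne_zero.2 (abc_ne h)), Int.natCast_dvd]

/-- the three kinds of bad primes -/
lemma gr_spec {b c : ℤ} (h : Adm b c) {p : ℕ} (hp : p ∈ PP b c) :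
    (gr b c p = 0 ∧ (p : ℤ) ∣ b + 16 * c ∧ ¬ (p : ℤ) ∣ b ∧ ¬ (p : ℤ) ∣ c) ∨
    (gr b c p = 1 ∧ ¬ (p : ℤ) ∣ b + 16 * c ∧ (p : ℤ) ∣ b ∧ ¬ (p : ℤ) ∣ c) ∨
    (gr b c p = 2 ∧ ¬ (p : ℤ) ∣ b + 16 * c ∧ ¬ (p : ℤ) ∣ b ∧ (p : ℤ) ∣ c) := by
  obtain ⟨h1, h2⟩ := (mem_PP h).1 hp
  unfold abc at h2
  rcases (Nat.prime_iff_prime_int.1 h1).dvd_or_dvd h2 with h3 | h3
  · rcases (Nat.prime_iff_prime_int.1 h1).dvd_or_dvd h3 with h4 | h4
    · exact Or.inl ⟨gr_a h4, h4, not_both h1 h.ab h4, not_both h1 h.ac h4⟩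
    · exact Or.inr (Or.inl ⟨gr_b h h1 h4, not_both h1 h.ab.symm h4, h4, not_both h1 h.2.2.2 h4⟩)
  · exact Or.inr (Or.inr ⟨gr_c h h1 h3, not_both h1 h.ac.symm h3, not_both h1 h.2.2.2.symm h3, h3⟩)

lemma gr_two {b c : ℤ} (h : Adm b c) : gr b c 2 = 2 := by
  have := h.1
  unfold gr
  rw [if_neg (by push_cast; omega), if_neg (by push_cast; omega)]

/-- a sum over the bad primes -/
lemma sum_gr {b c : ℤ} (h : Adm b c) (F : ℕ → ZMod 2) (f : ℕ → ZMod 2) :
    Sm (abc b c) (fun q => F (gr b c q) * f q) =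
      F 0 * Sm (b + 16 * c) f + F 1 * Sm b f + F 2 * Sm c f := by
  unfold abc
  rw [Sm_mul (mul_ne_zero h.2.2.1 (Adm.bz h)) h.2.1, Sm_mul h.2.2.1 (Adm.bz h)]
  have e : ∀ (n : ℤ) (u : ZMod 2), u * Sm n f = Sm n (fun q => u * f q) := by
    intro n u
    unfold Sm
    rw [mul_sum]
    exact sum_congr rfl fun q _ => by ring
  rw [e, e, e]
  congr 1
  · congr 1
    · exact Sm_congr fun q hq hd => by simp only [gr_a hd]
    · exact Sm_congr fun q hq hd => by simp only [gr_b h hq hd]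
  · exact Sm_congr fun q hq hd => by simp only [gr_c h hq hd]

lemma z2 (u : ZMod 2) : u = 0 ∨ u = 1 := by
  revert u; decide

lemma sum_JJ {b c : ℤ} (G : ℕ → ZMod 2) :
    ∑ q ∈ JJ b c, vv b c q * G q = Sm (abc b c) G := by
  unfold JJ
  rw [sum_filter_of_ne]
  · rfl
  · intro q _ hne
    right
    rcases z2 (vv b c q) with h0 | h0
    · rw [h0, zero_mul] at hne
      exact absurd rfl hne
    · exact h0

lemma ps_neg {p : ℕ} (hp : p.Prime) {n : ℤ} (hn : ¬ (p : ℤ) ∣ n) : ps p (-n) = ps p n + e4 p := by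
  have h1 : ¬ (p : ℤ) ∣ (-1) := by
    intro h
    exact (Nat.prime_iff_prime_int.1 hp).not_isUnit (isUnit_of_dvd_unit h (by norm_num))
  rw [← neg_one_mul, ps_mul hp h1 hn, ps_neg_one hp, add_comm]

lemma ps_abs {p : ℕ} (hp : p.Prime) {n : ℤ} (hn : ¬ (p : ℤ) ∣ n) :
    ps p |n| = ps p n + sg n * e4 p := by
  unfold sg
  by_cases h : n < 0
  · rw [if_pos h, abs_of_neg h, ps_neg hp hn, one_mul]
  · rw [if_neg h, abs_of_nonneg (not_lt.1 h), zero_mul, add_zero]

lemma e4_abs {n : ℤ} (hn : n % 4 = 1) : e4 |n| = sg n := by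
  unfold sg e4
  by_cases h : n < 0
  · rw [if_pos h, abs_of_neg h, if_pos (by omega)]
  · rw [if_neg h, abs_of_nonneg (not_lt.1 h), if_neg (by omega)]

lemma e4_idem (n : ℤ) : e4 n * e4 n = e4 n := by
  rcases z2 (e4 n) with h | h <;> rw [h] <;> decide

lemma a_mod {b c : ℤ} (h : Adm b c) : (b + 16 * c) % 4 = 1 := by
  have := h.1
  omega

lemma Sm_e4 {n : ℤ} (hn : n % 4 = 1) : Sm n (fun q => e4 (q : ℕ)) = sg n := by
  rw [← e4_abs hn, e4_fact (by omega)]
  rfl

lemma Sm_ps {p : ℕ} (hp : p.Prime) {n : ℤ} (hn : n ≠ 0) (hpn : ¬ (p : ℤ) ∣ n) :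
    Sm n (fun q => ps p (q : ℕ)) = ps p n + sg n * e4 p := by
  rw [← ps_abs hp hpn, ps_fact hp hn hpn]
  rfl

lemma sg_pos {n : ℤ} (h : 0 < n) : sg n = 0 := by
  unfold sg
  rw [if_neg (not_lt.2 h.le)]

/-- `a < 0` implies `b < 0` -/
lemma sg_ab {b c : ℤ} (hc : 0 < c) : sg (b + 16 * c) * sg b = sg (b + 16 * c) := by
  unfold sg
  by_cases h : b + 16 * c < 0
  · rw [if_pos h, if_pos (by omega), mul_one]
  · rw [if_neg h, zero_mul]

theorem Mx_symm (b c : ℤ) (h : Adm b c) (i j : Option (JJ b c)) : Mx b c i j = Mx b c j i := by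
  rcases i with _ | ⟨p, hp⟩ <;> rcases j with _ | ⟨q, hq⟩
  · rfl
  · rfl
  · rfl
  · by_cases hpq : p = q
    · subst hpq; rfl
    have hpp : p ∈ PP b c := (mem_filter.1 hp).1
    have hqq : q ∈ PP b c := (mem_filter.1 hq).1
    have hrec := ps_recip ((mem_PP h).1 hpp).1 ((mem_PP h).1 hqq).1 hpq
    have n1 : ¬ (⟨p, hp⟩ : JJ b c) = ⟨q, hq⟩ := fun h => hpq (Subtype.mk.injEq _ _ _ _ ▸ h)
    have n2 : ¬ (⟨q, hq⟩ : JJ b c) = ⟨p, hp⟩ := fun h => n1 h.symm
    show (if gr b c p ≠ gr b c q then ps p (q : ℕ) else 0) +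
      be b c p * e4 (p : ℕ) * (ga b c q * e4 (q : ℕ)) + (if (⟨p, hp⟩ : JJ b c) = ⟨q, hq⟩ then ns b c p else 0) =
      (if gr b c q ≠ gr b c p then ps q (p : ℕ) else 0) +
      be b c q * e4 (q : ℕ) * (ga b c p * e4 (p : ℕ)) + (if (⟨q, hq⟩ : JJ b c) = ⟨p, hp⟩ then ns b c q else 0)
    rw [if_neg n1, if_neg n2, add_zero, add_zero]
    unfold be ga
    revert hrec
    generalize ps p (q : ℕ) = u
    generalize ps q (p : ℕ) = v
    generalize e4 (p : ℕ) = s
    generalize e4 (q : ℕ) = t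
    rcases gr_spec h hpp with ⟨g1, -⟩ | ⟨g1, -⟩ | ⟨g1, -⟩ <;>
      rcases gr_spec h hqq with ⟨g2, -⟩ | ⟨g2, -⟩ | ⟨g2, -⟩ <;> rw [g1, g2] <;> revert u v s t <;>
      decide

/-- the solution of `M z = diag M` -/
def zz (b c : ℤ) : Option (JJ b c) → ZMod 2
  | none => sg (b + 16 * c)
  | some q => vv b c q

lemma J_mem {b c : ℤ} {p : ℕ} (hp : p ∈ JJ b c) : p ∈ PP b c := (mem_filter.1 hp).1

lemma nsv {b c : ℤ} {p : ℕ} (hp : p ∈ JJ b c) : ns b c p * vv b c p = ns b c p := by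
  rcases (mem_filter.1 hp).2 with h | h
  · rw [h, zero_mul]
  · rw [h, mul_one]

/-- the row at infinity -/
lemma row_inf {b c : ℤ} (h : Adm b c) :
    ∑ q ∈ JJ b c, vv b c q * (ga b c q * e4 (q : ℕ)) = sg (b + 16 * c) + sg b := by
  rw [sum_JJ (fun q => ga b c q * e4 (q : ℕ))]
  unfold ga
  rw [sum_gr h (fun g => if g = 2 then 0 else 1) (fun q => e4 (q : ℕ)), Sm_e4 (a_mod h), Sm_e4 h.1]
  norm_num

/-- the row at a finite place -/
lemma row_p {b c : ℤ} (h : Adm b c) (hc : 0 < c) {p : ℕ} (hp : p ∈ PP b c) :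
    ∑ q ∈ JJ b c, vv b c q * (if gr b c p ≠ gr b c q then ps p (q : ℕ) else 0) =
      be b c p * (ga b c p * e4 (p : ℕ)) + e4 (p : ℕ) * (ga b c p * sg (b + 16 * c) +
        be b c p * (sg (b + 16 * c) + sg b)) := by
  have hpp := ((mem_PP h).1 hp).1
  have e : ∑ q ∈ JJ b c, vv b c q * (if gr b c p ≠ gr b c q then ps p (q : ℕ) else 0) =
      ∑ q ∈ JJ b c, vv b c q * ((if gr b c p ≠ gr b c q then 1 else 0) * ps p (q : ℕ)) := by
    refine sum_congr rfl fun q _ => ?_
    split_ifs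
    · rw [one_mul]
    · rw [zero_mul]
  rw [e, sum_JJ (fun q => (if gr b c p ≠ gr b c q then 1 else 0) * ps p (q : ℕ)),
    sum_gr h (fun g => if gr b c p ≠ g then 1 else 0) (fun q => ps p (q : ℕ))]
  have hc0 := sg_pos hc
  have hb0 := Adm.bz h
  have tw : ∀ u : ZMod 2, u + u = 0 := by decide
  unfold be ga
  rcases gr_spec h hp with ⟨g1, d1, d2, d3⟩ | ⟨g1, d1, d2, d3⟩ | ⟨g1, d1, d2, d3⟩
  · rw [g1, Sm_ps hpp hb0 d2, Sm_ps hpp h.2.1 d3, hc0]
    have p2 : p ≠ 2 := by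
      rintro rfl
      rw [gr_two h] at g1
      exact absurd g1 (by norm_num)
    have k : ps p (b * c) = e4 (p : ℕ) := by
      have h16 : ¬ (p : ℤ) ∣ 4 * c := by
        refine nd_mul hpp ?_ d3
        intro h4
        have h4' : p ∣ 2 ^ 2 := by exact_mod_cast h4
        exact p2 ((Nat.prime_dvd_prime_iff_eq hpp Nat.prime_two).1 (hpp.dvd_of_dvd_pow h4'))
      have e1 : ps p (b * c) = ps p (-(4 * c) ^ 2) := by
        apply ps_congr p2
        have : b * c - -(4 * c) ^ 2 = (b + 16 * c) * c := by ring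
        rw [this]
        exact Dvd.dvd.mul_right d1 c
      have h17 : ¬ (p : ℤ) ∣ (4 * c) ^ 2 := by
        rw [pow_two]
        exact nd_mul hpp h16 h16
      rw [e1, ps_neg hpp h17, ps_sq hpp h16, zero_add]
    rw [ps_mul hpp d2 d3] at k
    revert k
    generalize ps p b = u
    generalize ps p c = v
    generalize e4 (p : ℕ) = s
    generalize sg (b + 16 * c) = x
    generalize sg b = y
    generalize Sm (b + 16 * c) _ = t
    revert u v s x y t
    decide
  · rw [g1, Sm_ps hpp h.2.2.1 d1, Sm_ps hpp h.2.1 d3, hc0]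
    have p2 : p ≠ 2 := by
      rintro rfl
      rw [gr_two h] at g1
      exact absurd g1 (by norm_num)
    have k : ps p ((b + 16 * c) * c) = 0 := by
      have h16 : ¬ (p : ℤ) ∣ 4 * c := by
        refine nd_mul hpp ?_ d3
        intro h4
        have h4' : p ∣ 2 ^ 2 := by exact_mod_cast h4
        exact p2 ((Nat.prime_dvd_prime_iff_eq hpp Nat.prime_two).1 (hpp.dvd_of_dvd_pow h4'))
      have e1 : ps p ((b + 16 * c) * c) = ps p ((4 * c) ^ 2) := by
        apply ps_congr p2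
        have : (b + 16 * c) * c - (4 * c) ^ 2 = b * c := by ring
        rw [this]
        exact Dvd.dvd.mul_right d2 c
      rw [e1, ps_sq hpp h16]
    rw [ps_mul hpp d1 d3] at k
    revert k
    generalize ps p (b + 16 * c) = u
    generalize ps p c = v
    generalize e4 (p : ℕ) = s
    generalize sg (b + 16 * c) = x
    generalize sg b = y
    generalize Sm b _ = t
    revert u v s x y t
    decide
  · rw [g1, Sm_ps hpp h.2.2.1 d1, Sm_ps hpp hb0 d2]
    have k : ps p ((b + 16 * c) * b) = 0 := by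
      by_cases p2 : p = 2
      · subst p2
        unfold ps
        rw [if_pos rfl]
        have h1 : ((b + 16 * c) * b) % 8 = 1 := by
          have hb4 := h.1
          have e1 : ((b + 16 * c) * b) = b * b + 8 * (2 * c * b) := by ring
          have e2 : (b * b) % 8 = 1 := by
            have h2 : b % 8 = 1 ∨ b % 8 = 5 := by omega
            rcases h2 with h2 | h2 <;> rw [Int.mul_emod, h2] <;> norm_num
          rw [e1]
          omega
        rw [h1]
        norm_num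
      · have e1 : ps p ((b + 16 * c) * b) = ps p (b ^ 2) := by
          apply ps_congr p2
          have : (b + 16 * c) * b - b ^ 2 = 16 * b * c := by ring
          rw [this]
          exact Dvd.dvd.mul_left d3 _
        rw [e1, ps_sq hpp d2]
    rw [ps_mul hpp d1 d2] at k
    revert k
    generalize ps p (b + 16 * c) = u
    generalize ps p b = v
    generalize e4 (p : ℕ) = s
    generalize sg (b + 16 * c) = x
    generalize sg b = y
    generalize Sm c _ = t
    revert u v s x y t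
    decide

lemma sum_opt {b c : ℤ} (f : Option (JJ b c) → ZMod 2) (g : ℕ → ZMod 2)
    (hg : ∀ q : JJ b c, f (some q) = g q) : ∑ i, f i = f none + ∑ q ∈ JJ b c, g q := by
  rw [Fintype.sum_option]
  congr 1
  exact (sum_congr rfl fun q _ => hg q).trans (sum_coe_sort (JJ b c) g)

/-- `M z = diag M` -/
theorem Mx_zz {b c : ℤ} (h : Adm b c) (hc : 0 < c) (i : Option (JJ b c)) :
    ∑ j, Mx b c i j * zz b c j = Mx b c i i := by
  rcases i with _ | ⟨p, hp⟩
  · rw [sum_opt _ (fun q => vv b c q * (ga b c q * e4 (q : ℕ))) (fun q => by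
      show ga b c q * e4 (q : ℕ) * vv b c q = _
      ring), row_inf h]
    show sg b * sg (b + 16 * c) + (sg (b + 16 * c) + sg b) = sg b
    have k := sg_ab (b := b) hc
    revert k
    generalize sg (b + 16 * c) = x
    generalize sg b = y
    revert x y
    decide
  · have hpP := J_mem hp
    rw [sum_opt _ (fun q => vv b c q * (if gr b c p ≠ gr b c q then ps p (q : ℕ) else 0) +
      be b c p * e4 (p : ℕ) * (vv b c q * (ga b c q * e4 (q : ℕ))) +
      (if p = q then ns b c p * vv b c p else 0)) (fun q => by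
      show ((if gr b c p ≠ gr b c q then ps p (q : ℕ) else 0) +
        be b c p * e4 (p : ℕ) * (ga b c q * e4 (q : ℕ)) +
        (if (⟨p, hp⟩ : JJ b c) = q then ns b c p else 0)) * vv b c q = _
      by_cases hpq : p = q
      · have n1 : (⟨p, hp⟩ : JJ b c) = q := Subtype.ext hpq
        rw [if_pos n1, if_pos hpq, ← hpq]
        ring
      · have n1 : ¬ (⟨p, hp⟩ : JJ b c) = q := fun h => hpq (congrArg Subtype.val h)
        rw [if_neg n1, if_neg hpq]
        ring), sum_add_distrib, sum_add_distrib, ← mul_sum, row_inf h, row_p h hc hpP, sum_ite_eq,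
        if_pos hp, nsv hp]
    show ga b c p * e4 (p : ℕ) * sg (b + 16 * c) + _ = (if gr b c p ≠ gr b c p then ps p (p : ℕ) else 0) +
      be b c p * e4 (p : ℕ) * (ga b c p * e4 (p : ℕ)) +
      (if (⟨p, hp⟩ : JJ b c) = ⟨p, hp⟩ then ns b c p else 0)
    rw [if_neg (not_not.2 rfl), if_pos rfl]
    generalize be b c p = b1
    generalize ga b c p = g1
    generalize e4 (p : ℕ) = s
    generalize sg (b + 16 * c) = x
    generalize sg b = y
    generalize ns b c p = n1
    revert b1 g1 s x y n1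
    decide

/-- the sign of a class modulo two -/
def sn (u : ZMod 2) : ℤ := if u = 0 then 1 else -1

lemma sn_add (u v : ZMod 2) : sn (u + v) = sn u * sn v := by
  revert u v; decide

lemma sn_nat (k : ℕ) : sn (k : ZMod 2) = (-1) ^ k := by
  induction k with
  | zero => simp [sn]
  | succ k ih =>
    push_cast
    rw [sn_add, ih, pow_succ]
    congr 1

lemma sn_sum (S : Finset ℕ) (f : ℕ → ZMod 2) : sn (∑ p ∈ S, f p) = ∏ p ∈ S, sn (f p) := by
  classical
  induction S using Finset.induction_on with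
  | empty => simp [sn]
  | insert a S ha ih => rw [sum_insert ha, prod_insert ha, sn_add, ih]

lemma xs_nd {b c : ℤ} (h : Adm b c) {p : ℕ} (hp : p ∈ PP b c) : ¬ (p : ℤ) ∣ xs b c (gr b c p) := by
  unfold xs
  rcases gr_spec h hp with ⟨g1, d1, d2, d3⟩ | ⟨g1, d1, d2, d3⟩ | ⟨g1, d1, d2, d3⟩
  · rw [g1, if_pos rfl, dvd_neg]; exact d2
  · rw [g1, if_neg (by norm_num), if_pos rfl, dvd_neg]; exact d1
  · rw [g1, if_neg (by norm_num), if_neg (by norm_num)]; exact d2

lemma w_prod {b c : ℤ} (h : Adm b c) :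
    w b c = -∏ p ∈ PP b c, (-kap (xs b c (gr b c p)) p) := by
  have e : PP b c = (Di b c).natAbs.primeFactors := by
    unfold PP Di abc
    rw [Int.natAbs_pow, Nat.primeFactors_pow _ two_ne_zero]
  rw [e, prod_Di h]
  unfold w U
  congr 1
  congr 1
  · congr 1
    · refine prod_congr rfl fun p hp => ?_
      rw [gr_a (mem_pf hp).2]
      rfl
    · refine prod_congr rfl fun p hp => ?_
      rw [gr_b h (mem_pf hp).1 (mem_pf hp).2]
      rfl
  · refine prod_congr rfl fun p hp => ?_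
    rw [gr_c h (mem_pf hp).1 (mem_pf hp).2]
    rfl

/-- **The parity of the corank is the root number.** -/
theorem ent {b c : ℤ} (h : Adm b c) (hc : 0 < c) :
    ∃ k : ℕ, Nat.card (Ker (Mx b c)) = 2 ^ k ∧ (-1 : ℤ) ^ k = w b c := by
  obtain ⟨k, h1, h2⟩ := corank (Mx_symm b c h) (Mx_zz h hc)
  refine ⟨k, h1, ?_⟩
  rw [← sn_nat, h2, Fintype.card_option, Fintype.card_coe, sum_opt _ (fun q =>
    vv b c q * (be b c q * (ga b c q * e4 (q : ℕ))) + ns b c q) (fun q => by
      show ((if gr b c q ≠ gr b c q then ps q (q : ℕ) else 0) +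
        be b c q * e4 (q : ℕ) * (ga b c q * e4 (q : ℕ)) +
        (if q = q then ns b c q else 0)) * vv b c q = _
      rw [if_neg (not_not.2 rfl), if_pos rfl]
      have k := nsv q.2
      have e2 := e4_idem ((q : ℕ) : ℤ)
      have e3 : (0 + be b c q * e4 (q : ℕ) * (ga b c q * e4 (q : ℕ)) + ns b c q) * vv b c q =
        vv b c q * (be b c q * (ga b c q * (e4 (q : ℕ) * e4 (q : ℕ)))) + ns b c q * vv b c q := by ring
      rw [e3, k, e2]), sum_add_distrib]
  have s1 : ∑ q ∈ JJ b c, vv b c q * (be b c q * (ga b c q * e4 (q : ℕ))) = sg (b + 16 * c) := by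
    rw [sum_JJ (fun q => be b c q * (ga b c q * e4 (q : ℕ)))]
    have e : (fun q => be b c q * (ga b c q * e4 (q : ℕ))) =
        (fun q => (fun g => (if g = 1 then 0 else 1) * (if g = 2 then 0 else 1) : ℕ → ZMod 2)
          (gr b c q) * (fun q : ℕ => e4 (q : ℕ)) q) := by
      funext q
      unfold be ga
      simp only
      ring
    rw [e]
    refine (sum_gr h (fun g => (if g = 1 then 0 else 1) * (if g = 2 then 0 else 1))
      (fun q => e4 (q : ℕ))).trans ?_
    rw [Sm_e4 (a_mod h), Sm_e4 h.1]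
    norm_num
  have s2 : ((JJ b c).card : ZMod 2) + ∑ q ∈ JJ b c, ns b c q = ∑ q ∈ PP b c, (1 + ns b c q) := by
    have e1 : ∑ q ∈ PP b c, (1 + ns b c q) = ∑ q ∈ JJ b c, (1 + ns b c q) := by
      unfold JJ
      rw [sum_filter_of_ne]
      intro q _ hne
      left
      rcases z2 (ns b c q) with h0 | h0
      · exact h0
      · rw [h0] at hne
        exact absurd (by decide) hne
    rw [e1, sum_add_distrib, sum_const, nsmul_eq_mul, mul_one]
  rw [s1]
  have e4' : Mx b c none none * zz b c none = sg b * sg (b + 16 * c) := rfl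
  rw [e4', mul_comm, sg_ab hc]
  have e5 : (((JJ b c).card + 1 : ℕ) : ZMod 2) + (sg (b + 16 * c) + (sg (b + 16 * c) +
      ∑ q ∈ JJ b c, ns b c q)) = 1 + ∑ q ∈ PP b c, (1 + ns b c q) := by
    rw [← s2]
    push_cast
    generalize ((JJ b c).card : ZMod 2) = u
    generalize ∑ q ∈ JJ b c, ns b c q = v
    generalize sg (b + 16 * c) = x
    revert u v x
    decide
  rw [e5, sn_add, sn_sum, w_prod h]
  have e6 : sn 1 = -1 := by decide
  rw [e6, neg_one_mul]
  congr 1
  refine prod_congr rfl fun p hp => ?_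
  unfold ns
  rcases kap_pm ((mem_PP h).1 hp).1 (xs_nd h hp) with h3 | h3
  · rw [h3, if_pos rfl]; decide
  · rw [h3, if_neg (by norm_num)]; decide

end Pool.Agent.K1H81.PS
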