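import Pool.Agent.K1H81.PS.Glob
import Pool.Agent.K1H81.RN.Iso
import Pool.Agent.Y667.SX.Main

/-!
# The parity of the 2-Selmer groups of the semistable curves with full 2-torsion (helper81)
-/

set_option autoImplicit false

namespace Pool.Agent.K1H81.PS

open Finset Filter Topology Pool.Agent.K1H81.RN
open Pool.Agent.W307.SE (Sel SelR)
open Pool.Agent.W307.RT (Sh)
open Pool.Agent.Y667.SX (Sel2H)
open Pool.Agent.TH841.SH.D (Sha)

/-- the equation `y² = x³ - 27 c₄ x - 54 c₆` -/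
def E (z : ℤ × ℤ) : WeierstrassCurve ℚ := ⟨0, 0, 0, -27 * (z.1 : ℚ), -54 * (z.2 : ℚ)⟩

/-- the Mordell-Weil rank -/
noncomputable def rank (z : ℤ × ℤ) : ℕ := Module.finrank ℤ (E z).toAffine.Point

/-- the Tate-Shafarevich group -/
abbrev Sha2 (z : ℤ × ℤ) : Type := {x : Sha (E z) // x + x = 0}

/-- the dimension of the 2-Selmer group -/
noncomputable def selDim (z : ℤ × ℤ) : ℕ := Nat.log 2 (Nat.card (Sel2H (E z)))

/-- the dimension of `Ш[2]` -/
noncomputable def shaDim (z : ℤ × ℤ) : ℕ := Nat.log 2 (Nat.card (Sha2 z))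

lemma E_eq (z : ℤ × ℤ) : E z = Sh (-27 * z.1) (-54 * z.2) := by
  unfold E Sh
  push_cast
  rfl

theorem sel_of {b c : ℤ} (h : Adm b c) (hc : 0 < c) :
    Finite (Sel2H (E (C4 b c, C6 b c))) ∧
    Nat.card (Sel2H (E (C4 b c, C6 b c))) = 2 ^ selDim (C4 b c, C6 b c) ∧
    Finite (Sha2 (C4 b c, C6 b c)) ∧ Nat.card (Sha2 (C4 b c, C6 b c)) = 2 ^ shaDim (C4 b c, C6 b c) ∧
    selDim (C4 b c, C6 b c) = rank (C4 b c, C6 b c) + shaDim (C4 b c, C6 b c) + 2 ∧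
    (-1 : ℤ) ^ selDim (C4 b c, C6 b c) = w b c := by
  obtain ⟨hfin, k, hk, hw⟩ := sel_card h hc
  have hb0 := Adm.bz h
  have hDi : Di b c ≠ 0 := pow_ne_zero 2 (abc_ne h)
  have hD : 4 * (-27 * C4 b c) ^ 3 + 27 * (-54 * C6 b c) ^ 2 ≠ 0 := by
    have e : 4 * (-27 * C4 b c) ^ 3 + 27 * (-54 * C6 b c) ^ 2 = -136048896 * Di b c := by
      linear_combination (-78732) * C4_C6 b c
    rw [e]
    exact mul_ne_zero (by norm_num) hDi
  have he : ∀ x : ℤ, x ^ 3 + (-27 * C4 b c) * x + (-54 * C6 b c) =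
      (x - (3 * b - 48 * c)) * (x - (-6 * b - 48 * c)) * (x - (3 * b + 96 * c)) := by
    intro x
    unfold C4 C6
    ring
  obtain ⟨hS, hcard⟩ := Pool.Agent.Y212.RZ.SELC2 (-27 * C4 b c) (-54 * C6 b c) (3 * b - 48 * c)
    (-6 * b - 48 * c) (3 * b + 96 * c) (-b) (16 * c) 3 hD he (by norm_num) (by push_cast; ring)
    (by push_cast; ring) hfin
  rw [hk] at hcard
  obtain ⟨h1, h2⟩ := Pool.Agent.Z864.SX.SELH _ _ _ _ _ hD he hS
  obtain ⟨h3, h4⟩ := Pool.Agent.Y214.SX.RKSHA _ _ _ _ _ hD he h1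
  obtain ⟨h5⟩ := Pool.Agent.Y833.SX.SEL2 _ _ _ _ _ hD he
  rw [hcard] at h2
  rw [h2] at h4
  have e := E_eq (C4 b c, C6 b c)
  have c1 : Nat.card (Sel2H (E (C4 b c, C6 b c))) = 2 ^ k := by
    rw [e]
    exact (Nat.card_congr h5).trans h2
  have s1 : selDim (C4 b c, C6 b c) = k := by
    unfold selDim
    rw [c1, Nat.log_pow (by norm_num)]
  have c2 : 2 ^ (rank (C4 b c, C6 b c) + 2) * Nat.card (Sha2 (C4 b c, C6 b c)) = 2 ^ k := by
    unfold rank Sha2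
    rw [e]
    exact h4
  obtain ⟨t, -, ht⟩ := (Nat.dvd_prime_pow Nat.prime_two).1 (Dvd.intro_left _ c2)
  have s2 : shaDim (C4 b c, C6 b c) = t := by
    unfold shaDim
    rw [ht, Nat.log_pow (by norm_num)]
  have s3 : k = rank (C4 b c, C6 b c) + t + 2 := by
    rw [ht, ← pow_add] at c2
    have := Nat.pow_right_injective (le_refl 2) c2
    omega
  refine ⟨?_, by rw [s1, c1], ?_, by rw [s2, ht], by rw [s1, s2, s3], by rw [s1, hw]⟩
  · rw [e]
    exact Finite.of_equiv _ h5.symm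
  · unfold Sha2
    rw [e]
    exact h3

/-- **The parity of the dimension of the 2-Selmer group.** -/
theorem parity {W : WeierstrassCurve ℤ} (hs : Semistable W) (hf : Full W) :
    (∃ C : WeierstrassCurve.VariableChange ℚ,
      C • (W.map (Int.castRingHom ℚ)) = E (W.c₄, W.c₆)) ∧
    Finite (Sel2H (E (W.c₄, W.c₆))) ∧ Nat.card (Sel2H (E (W.c₄, W.c₆))) = 2 ^ selDim (W.c₄, W.c₆) ∧
    Finite (Sha2 (W.c₄, W.c₆)) ∧ Nat.card (Sha2 (W.c₄, W.c₆)) = 2 ^ shaDim (W.c₄, W.c₆) ∧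
    selDim (W.c₄, W.c₆) = rank (W.c₄, W.c₆) + shaDim (W.c₄, W.c₆) + 2 ∧
    (-1 : ℤ) ^ selDim (W.c₄, W.c₆) = wSemi W := by
  refine ⟨?_, ?_⟩
  · obtain ⟨C, hC⟩ := short_exists W 6 (by norm_num) (-27 * W.c₄) (-54 * W.c₆)
      (by push_cast; ring) (by push_cast; ring)
    refine ⟨C, hC.trans ?_⟩
    exact (E_eq (W.c₄, W.c₆)).symm
  · obtain ⟨b, c, hadm, hc, e4, e6, -, hw⟩ := cls hs hf
    rw [e4, e6, hw]
    exact sel_of hadm hc

/-- the isomorphism classes with the property `Q` -/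
def FamS (H : WeierstrassCurve ℤ → ℕ) (m : ℕ) (r s : ℤ) (Q : ℤ × ℤ → Prop) (Z : ℕ) : Set (ℤ × ℤ) :=
  {z | ∃ W : WeierstrassCurve ℤ, Semistable W ∧ Full W ∧ H W ≤ Z ∧ W.c₄ ≡ r [ZMOD m] ∧
    W.c₆ ≡ s [ZMOD m] ∧ z = (W.c₄, W.c₆) ∧ Q z}

lemma FamS_true (H : WeierstrassCurve ℤ → ℕ) (m : ℕ) (r s : ℤ) (Z : ℕ) :
    FamS H m r s (fun _ => True) Z = Fam H m r s (fun _ => True) Z := by
  ext z
  constructor
  · rintro ⟨W, h1, h2, h3, h4, h5, h6, -⟩
    exact ⟨W, h1, h2, h3, h4, h5, trivial, h6⟩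
  · rintro ⟨W, h1, h2, h3, h4, h5, -, h6⟩
    exact ⟨W, h1, h2, h3, h4, h5, h6, trivial⟩

lemma FamS_par (H : WeierstrassCurve ℤ → ℕ) (m : ℕ) (r s : ℤ) (Z : ℕ) (e : ℕ) :
    FamS H m r s (fun z => selDim z % 2 = e % 2) Z = Fam H m r s (fun w => w = (-1) ^ e) Z := by
  have key : ∀ k : ℕ, (k % 2 = e % 2) ↔ ((-1 : ℤ) ^ k = (-1) ^ e) := by
    intro k
    constructor
    · intro h
      rw [← Nat.div_add_mod k 2, ← Nat.div_add_mod e 2, h, pow_add, pow_add, pow_mul, pow_mul]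
      norm_num
    · intro h
      rcases Nat.even_or_odd k with h1 | h1 <;> rcases Nat.even_or_odd e with h2 | h2
      · rw [Nat.even_iff.1 h1, Nat.even_iff.1 h2]
      · rw [h1.neg_one_pow, h2.neg_one_pow] at h
        norm_num at h
      · rw [h1.neg_one_pow, h2.neg_one_pow] at h
        norm_num at h
      · rw [Nat.odd_iff.1 h1, Nat.odd_iff.1 h2]
  ext z
  constructor
  · rintro ⟨W, h1, h2, h3, h4, h5, h6, h7⟩
    refine ⟨W, h1, h2, h3, h4, h5, ?_, h6⟩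
    show wSemi W = (-1) ^ e
    rw [← (parity h1 h2).2.2.2.2.2.2, ← key, ← h6]
    exact h7
  · rintro ⟨W, h1, h2, h3, h4, h5, h6, h7⟩
    refine ⟨W, h1, h2, h3, h4, h5, h7, ?_⟩
    show selDim z % 2 = e % 2
    rw [key, h7, (parity h1 h2).2.2.2.2.2.2]
    exact h6

/-- the average over the classes of size at most `Z` -/
noncomputable def avg (H : WeierstrassCurve ℤ → ℕ) (m : ℕ) (r s : ℤ) (g : ℤ × ℤ → ℝ) (Z : ℕ) : ℝ :=
  (∑ᶠ z ∈ FamS H m r s (fun _ => True) Z, g z) / ((FamS H m r s (fun _ => True) Z).ncard : ℝ)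

/-- **The theorem.** -/
theorem final {H : WeierstrassCurve ℤ → ℕ}
    (hH : H = height ∨ H = (fun W => W.Δ.natAbs) ∨ H = RN.cond) {m : ℕ} (hm : 0 < m) {r s : ℤ}
    (hex : ∃ W : WeierstrassCurve ℤ, Semistable W ∧ Full W ∧ W.c₄ ≡ r [ZMOD m] ∧ W.c₆ ≡ s [ZMOD m]) :
    (∀ Z, (FamS H m r s (fun _ => True) Z).Finite) ∧
    Tendsto (fun Z => (FamS H m r s (fun _ => True) Z).ncard) atTop atTop ∧
    (∀ e : ℕ, Tendsto (fun Z => ((FamS H m r s (fun z => selDim z % 2 = e % 2) Z).ncard : ℝ) /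
        ((FamS H m r s (fun _ => True) Z).ncard : ℝ)) atTop (𝓝 (1 / 2))) ∧
    ∀ ε : ℝ, 0 < ε → ∀ᶠ Z in atTop,
      1 / 2 - ε ≤ avg H m r s (fun z => (rank z : ℝ) + shaDim z) Z := by
  obtain ⟨h1, h2, h3⟩ := main hH hm hex
  have ht : ∀ Z, FamS H m r s (fun _ => True) Z = Fam H m r s (fun _ => True) Z :=
    FamS_true H m r s
  have h4 : ∀ e : ℕ, Tendsto (fun Z => ((FamS H m r s (fun z => selDim z % 2 = e % 2) Z).ncard : ℝ) /
        ((FamS H m r s (fun _ => True) Z).ncard : ℝ)) atTop (𝓝 (1 / 2)) := by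
    intro e
    simp only [ht, FamS_par]
    exact h3 _ (neg_one_pow_eq_or ℤ e)
  refine ⟨fun Z => by rw [ht]; exact h1 Z, by simp only [ht]; exact h2, h4, ?_⟩
  intro ε hε
  have h5 := h4 1
  have h6 := h5.eventually (lt_mem_nhds (show 1 / 2 - ε < (1 / 2 : ℝ) by linarith))
  filter_upwards [h6] with Z hZ
  refine hZ.le.trans ?_
  unfold avg
  have hfin : (FamS H m r s (fun _ => True) Z).Finite := by rw [ht]; exact h1 Z
  apply div_le_div_of_nonneg_right _ (Nat.cast_nonneg _)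
  have hsub : FamS H m r s (fun z => selDim z % 2 = 1 % 2) Z ⊆ FamS H m r s (fun _ => True) Z := by
    rintro z ⟨W, a1, a2, a3, a4, a5, a6, -⟩
    exact ⟨W, a1, a2, a3, a4, a5, a6, trivial⟩
  have hfin' := hfin.subset hsub
  rw [finsum_mem_eq_finite_toFinset_sum _ hfin, Set.ncard_eq_toFinset_card _ hfin', card_eq_sum_ones]
  push_cast
  calc ∑ z ∈ hfin'.toFinset, (1 : ℝ) ≤ ∑ z ∈ hfin'.toFinset, ((rank z : ℝ) + shaDim z) := by
        refine sum_le_sum fun z hz => ?_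
        rw [Set.Finite.mem_toFinset] at hz
        obtain ⟨W, a1, a2, -, -, -, a6, a7⟩ := hz
        have a8 := (parity a1 a2).2.2.2.2.2.1
        rw [← a6] at a8
        have a9 : 1 ≤ rank z + shaDim z := by omega
        exact_mod_cast a9
    _ ≤ ∑ z ∈ hfin.toFinset, ((rank z : ℝ) + shaDim z) := by
        refine sum_le_sum_of_subset_of_nonneg ?_ fun z _ _ => by positivity
        intro z hz
        rw [Set.Finite.mem_toFinset] at hz ⊢
        exact hsub hz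

end Pool.Agent.K1H81.PS
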