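import Pool.Agent.K1H81.PS.Tri
import Pool.Agent.K1H45.PS.Mul
import Pool.Agent.K1H45.PS.Oddn
import Pool.Agent.K1H69.PS.TOR
import Pool.Agent.K1H69.PS.ODDS
import Pool.Agent.K1H12.PS.TWON
import Pool.Agent.K1H12.PS.TWOS
import Pool.Agent.Y105.RZ.Goods
import Pool.Agent.Y212.RZ.Selc2
import Pool.Agent.W405.SE.GoodP
import Pool.Agent.W407.SE.Ratp

/-!
# The 2-Selmer group as the kernel of a symmetric matrix (helper81)
-/

set_option autoImplicit false

namespace Pool.Agent.K1H81.PS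

open Finset Pool.Agent.K1H81.RN
open Pool.Agent.W307.SE (Loc Sel)

lemma loc_lk {K : Type} [Field K] [CharZero K] {A B d1 d2 d3 : ℤ} (ht : Tri d1 d2 d3) :
    Loc K A B d1 d2 ↔ Lk K 0 (A : K) (B : K) d1 d2 d3 := by
  have n1 : (d1 : K) ≠ 0 := by exact_mod_cast ht.1.ne_zero
  have n2 : (d2 : K) ≠ 0 := by exact_mod_cast ht.2.1.ne_zero
  obtain ⟨-, -, -, k, hk⟩ := ht
  have hk' : (d1 : K) * d2 * d3 = (k : K) ^ 2 := by exact_mod_cast hk
  constructor
  · rintro ⟨x, y, hy, h, ⟨r, hr⟩, ⟨s, hs⟩⟩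
    have hprod : x * (x - A) * (x - B) ≠ 0 := by rw [← h]; exact pow_ne_zero 2 hy
    have hx0 : x ≠ 0 := left_ne_zero_of_mul (left_ne_zero_of_mul hprod)
    have hxA0 : x - A ≠ 0 := right_ne_zero_of_mul (left_ne_zero_of_mul hprod)
    have hr0 : r ≠ 0 := by
      rintro rfl
      rw [mul_zero] at hr
      exact (mul_ne_zero hx0 n1) hr
    have hs0 : s ≠ 0 := by
      rintro rfl
      rw [mul_zero] at hs
      exact (mul_ne_zero hxA0 n2) hs
    refine ⟨x, y, hy, by rw [h]; ring, ⟨r, by rw [← hr]; ring⟩, ⟨s, hs⟩,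
      ⟨y * k / (r * s), ?_⟩⟩
    field_simp
    have e1 : (x - B) * d3 * (r * r) * (s * s) = (y * k) ^ 2 := by
      rw [← hr, ← hs, mul_pow, h, ← hk']
      ring
    linear_combination e1
  · rintro ⟨x, y, hy, h, h1, h2, -⟩
    exact ⟨x, y, hy, by rw [h]; ring, by simpa using h1, h2⟩

lemma Lk.sw23 {K : Type} [Field K] {e1 e2 e3 u1 u2 u3 : K} :
    Lk K e1 e2 e3 u1 u2 u3 ↔ Lk K e1 e3 e2 u1 u3 u2 := by
  constructor
  · rintro ⟨x, y, hy, h, h1, h2, h3⟩
    exact ⟨x, y, hy, by rw [h]; ring, h1, h3, h2⟩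
  · rintro ⟨x, y, hy, h, h1, h2, h3⟩
    exact ⟨x, y, hy, by rw [h]; ring, h1, h3, h2⟩

lemma Lk.rt {K : Type} [Field K] {e1 e2 e3 u1 u2 u3 : K} :
    Lk K e1 e2 e3 u1 u2 u3 ↔ Lk K e2 e3 e1 u2 u3 u1 := by
  constructor
  · rintro ⟨x, y, hy, h, h1, h2, h3⟩
    exact ⟨x, y, hy, by rw [h]; ring, h2, h3, h1⟩
  · rintro ⟨x, y, hy, h, h1, h2, h3⟩
    exact ⟨x, y, hy, by rw [h]; ring, h3, h1, h2⟩

/-- the local condition at a bad prime, in terms of the classes `d 0`, `d 1`, `d 2` -/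
def CC (b c : ℤ) (p : ℕ) (d : ℕ → ℤ) : Prop :=
  ¬ (p : ℤ) ∣ d (gr b c p) ∧ (if ns b c p = 0 then ps p (d (gr b c p)) = 0 else
    ((p : ℤ) ∣ d (if gr b c p = 0 then 2 else 0) ↔ (vv b c p = 1 ∧ ps p (d (gr b c p)) = 1)))

lemma co_iff {b c : ℤ} {p : ℕ} (hp : p.Prime) (h2 : p ≠ 2) {e1 e2 e3 : ℤ} (d : ℕ → ℤ)
    (hJ : jacobiSym (e1 - e3) p = 1 ↔ ns b c p = 0)
    (hV : Odd (padicValInt p (e1 - e2)) ↔ vv b c p = 1) :
    Co p e1 e2 e3 (d (if gr b c p = 0 then 2 else 0)) (d (gr b c p)) ↔ CC b c p d := by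
  unfold Co CC
  refine and_congr_right fun hn => ?_
  have k1 : jacobiSym (d (gr b c p)) p = 1 ↔ ps p (d (gr b c p)) = 0 := by
    unfold ps
    rw [if_neg h2]
    rcases jac_pm hp hn with h | h
    · rw [h]; decide
    · rw [h]; decide
  have k2 : jacobiSym (d (gr b c p)) p = -1 ↔ ps p (d (gr b c p)) = 1 := by
    unfold ps
    rw [if_neg h2]
    rcases jac_pm hp hn with h | h
    · rw [h]; decide
    · rw [h]; decide
  by_cases hns : ns b c p = 0
  · rw [if_pos hns, if_pos (hJ.2 hns)]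
    exact k1
  · rw [if_neg hns, if_neg (fun h => hns (hJ.1 h)), hV, k2]

lemma vv_eq {b c : ℤ} {p : ℕ} [hp : Fact p.Prime] :
    vv b c p = ((padicValInt p (abc b c) : ℕ) : ZMod 2) := by
  unfold vv padicValInt
  rw [Nat.factorization_def _ hp.out]

lemma val_mul {p : ℕ} [hp : Fact p.Prime] {m n : ℤ} (hm : ¬ (p : ℤ) ∣ m) (hn : n ≠ 0) :
    padicValInt p (m * n) = padicValInt p n := by
  have hm0 : m ≠ 0 := fun h => hm (h ▸ dvd_zero _)
  rw [padicValInt.mul hm0 hn]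
  have : padicValInt p m = 0 := by
    unfold padicValInt
    exact padicValNat.eq_zero_of_not_dvd fun h => hm (Int.natCast_dvd.2 h)
  rw [this, zero_add]

lemma nd_unit {p : ℕ} (hp : p.Prime) : ¬ (p : ℤ) ∣ (-1) := fun h =>
  (Nat.prime_iff_prime_int.1 hp).not_isUnit (isUnit_of_dvd_unit h (by norm_num))

lemma nd_16 {p : ℕ} (hp : p.Prime) (h2 : p ≠ 2) : ¬ (p : ℤ) ∣ 16 := by
  intro h
  have h' : p ∣ 2 ^ 4 := by exact_mod_cast h
  exact h2 ((Nat.prime_dvd_prime_iff_eq hp Nat.prime_two).1 (hp.dvd_of_dvd_pow h'))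

/-- the local condition at an odd bad prime -/
theorem odd_iff {b c : ℤ} (h : Adm b c) (d : ℕ → ℤ) (ht : Tri (d 0) (d 2) (d 1)) {p : ℕ}
    [hp : Fact p.Prime] (hP : p ∈ PP b c) (h2 : p ≠ 2) :
    Lk ℚ_[p] 0 ((-b : ℤ) : ℚ_[p]) ((16 * c : ℤ) : ℚ_[p]) (d 0 : ℤ) (d 2 : ℤ) (d 1 : ℤ) ↔ CC b c p d := by
  have hN := Pool.Agent.K1H45.PS.t_ODDN
  have hS := Pool.Agent.K1H69.PS.t_ODDS Pool.Agent.K1H45.PS.t_MUL Pool.Agent.K1H69.PS.t_TOR
  have hz : ((0 : ℤ) : ℚ_[p]) = 0 := Int.cast_zero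
  have h16 := nd_16 hp.out h2
  have hu := nd_unit hp.out
  have hb0 := Adm.bz h
  have hkap : ∀ n : ℤ, kap n p = jacobiSym n p := fun n => by unfold kap; rw [if_neg h2]
  have hns : ∀ m : ℤ, kap (xs b c (gr b c p)) p = jacobiSym m p →
      (jacobiSym m p = 1 ↔ ns b c p = 0) := by
    intro m hm
    unfold ns
    rw [hm]
    by_cases h1 : jacobiSym m p = 1
    · rw [h1, if_pos rfl]; decide
    · rw [if_neg h1]
      exact ⟨fun h => absurd h h1, fun h => absurd h (by decide)⟩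
  have hvv : ∀ (m n : ℤ), padicValInt p m = padicValInt p n → padicValInt p (abc b c) = padicValInt p n →
      (Odd (padicValInt p m) ↔ vv b c p = 1) := by
    intro m n h1 h2
    rw [vv_eq, h2, h1, ZMod.natCast_eq_one_iff_odd]
  rcases gr_spec h hP with ⟨g1, d1, d2, d3⟩ | ⟨g1, d1, d2, d3⟩ | ⟨g1, d1, d2, d3⟩
  · -- the prime divides `b + 16 c`
    have e13 : ¬ (p : ℤ) ∣ -b - 0 := by rw [sub_zero, dvd_neg]; exact d2
    have e12 : (p : ℤ) ∣ -b - 16 * c := by
      have : -b - 16 * c = -(b + 16 * c) := by ring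
      rw [this, dvd_neg]; exact d1
    have ne12 : -b ≠ 16 * c := fun h' => h.2.2.1 (by linarith)
    have hco := co_iff hp.out h2 (e1 := -b) (e2 := 16 * c) (e3 := 0) d
      (hns _ (by rw [g1, hkap, sub_zero]; rfl))
      (hvv _ (b + 16 * c) (by
        have : -b - 16 * c = (-1) * (b + 16 * c) := by ring
        rw [this, val_mul hu h.2.2.1]) (by
        have : abc b c = (b * c) * (b + 16 * c) := by unfold abc; ring
        rw [this, val_mul (nd_mul hp.out d2 d3) h.2.2.1]))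
    rw [g1, if_pos rfl] at hco
    rw [Lk.rt, ← hco, ← hz]
    have ht' : Tri (d 2) (d 1) (d 0) := ht.r
    exact ⟨fun hL => hN p (-b) (16 * c) 0 (d 2) (d 1) (d 0) h2 ne12 e12 e13 ht' hL,
      fun hC => hS p (-b) (16 * c) 0 (d 2) (d 1) (d 0) h2 ne12 e12 e13 ht' hC⟩
  · -- the prime divides `b`
    have e13 : ¬ (p : ℤ) ∣ 0 - 16 * c := by
      rw [zero_sub, dvd_neg]; exact nd_mul hp.out h16 d3
    have e12 : (p : ℤ) ∣ 0 - -b := by
      rw [zero_sub, neg_neg]; exact d2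
    have ne12 : (0 : ℤ) ≠ -b := fun h' => hb0 (by linarith)
    have hco := co_iff hp.out h2 (e1 := 0) (e2 := -b) (e3 := 16 * c) d
      (hns _ (by
        rw [g1, hkap]
        unfold xs
        rw [if_neg (by norm_num), if_pos rfl]
        apply jacobiSym.mod_left'
        refine (Int.modEq_iff_dvd.2 ?_)
        have : 0 - 16 * c - -(b + 16 * c) = b := by ring
        rw [this]; exact d2))
      (hvv _ b (by rw [zero_sub, neg_neg]) (by
        have : abc b c = ((b + 16 * c) * c) * b := by unfold abc; ring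
        rw [this, val_mul (nd_mul hp.out d1 d3) hb0]))
    rw [g1, if_neg (by norm_num)] at hco
    rw [← hco, ← hz]
    exact ⟨fun hL => hN p 0 (-b) (16 * c) (d 0) (d 2) (d 1) h2 ne12 e12 e13 ht hL,
      fun hC => hS p 0 (-b) (16 * c) (d 0) (d 2) (d 1) h2 ne12 e12 e13 ht hC⟩
  · -- the prime divides `c`
    have e13 : ¬ (p : ℤ) ∣ 0 - -b := by
      rw [zero_sub, neg_neg]; exact d2
    have e12 : (p : ℤ) ∣ 0 - 16 * c := by
      rw [zero_sub, dvd_neg]; exact Dvd.dvd.mul_left d3 _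
    have ne12 : (0 : ℤ) ≠ 16 * c := fun h' => h.2.1 (by linarith)
    have hco := co_iff hp.out h2 (e1 := 0) (e2 := 16 * c) (e3 := -b) d
      (hns _ (by
        rw [g1, hkap, zero_sub, neg_neg]
        rfl))
      (hvv _ c (by
        have : 0 - 16 * c = (-16) * c := by ring
        rw [this, val_mul (by rw [dvd_neg]; exact h16) h.2.1]) (by
        unfold abc
        rw [val_mul (nd_mul hp.out d1 d2) h.2.1]))
    rw [g1, if_neg (by norm_num)] at hco
    rw [Lk.sw23, ← hco, ← hz]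
    exact ⟨fun hL => hN p 0 (16 * c) (-b) (d 0) (d 1) (d 2) h2 ne12 e12 e13 ht.s hL,
      fun hC => hS p 0 (16 * c) (-b) (d 0) (d 1) (d 2) h2 ne12 e12 e13 ht.s hC⟩

/-- the local condition at two -/
theorem two_iff {b c : ℤ} (h : Adm b c) (d : ℕ → ℤ) (ht : Tri (d 0) (d 2) (d 1)) [Fact (Nat.Prime 2)] :
    Lk ℚ_[2] 0 ((-b : ℤ) : ℚ_[2]) ((16 * c : ℤ) : ℚ_[2]) (d 0 : ℤ) (d 2 : ℤ) (d 1 : ℤ) ↔
      (d 2 % 4 = 1 ∧ (if 2 ∈ PP b c then CC b c 2 d else ¬ (2 : ℤ) ∣ d 0)) := by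
  have hN := Pool.Agent.K1H12.PS.t_TWON
  have hS := Pool.Agent.K1H12.PS.t_TWOS Pool.Agent.K1H45.PS.t_MUL Pool.Agent.K1H69.PS.t_TOR
  have e : C2 b c (d 0) (d 2) ↔
      (d 2 % 4 = 1 ∧ (if 2 ∈ PP b c then CC b c 2 d else ¬ (2 : ℤ) ∣ d 0)) := by
    unfold C2
    refine and_congr_right fun h4 => ?_
    have hb4 := h.1
    have hb2 : ¬ ((2 : ℕ) : ℤ) ∣ b := by push_cast; omega
    have ha2 : ¬ ((2 : ℕ) : ℤ) ∣ b + 16 * c := by push_cast; omega
    have hmem : 2 ∈ PP b c ↔ ¬ c % 2 = 1 := by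
      rw [mem_PP h]
      constructor
      · rintro ⟨h1, h2⟩ h3
        have h2c : ¬ ((2 : ℕ) : ℤ) ∣ c := by push_cast; omega
        exact nd_mul Nat.prime_two (nd_mul Nat.prime_two ha2 hb2) h2c h2
      · intro h3
        refine ⟨Nat.prime_two, ?_⟩
        unfold abc
        have : ((2 : ℕ) : ℤ) ∣ c := by push_cast; omega
        exact Dvd.dvd.mul_left this _
    by_cases hc : c % 2 = 1
    · rw [if_pos hc, if_neg (fun h' => (hmem.1 h') hc)]
    · rw [if_neg hc, if_pos (hmem.2 hc)]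
      unfold CC
      rw [gr_two h, if_neg (by norm_num : ¬ (2 : ℕ) = 0)]
      have hns : ns b c 2 = 0 ↔ b % 8 = 1 := by
        have e : kap (xs b c (gr b c 2)) 2 = (if b % 8 = 1 then 1 else -1) := by
          rw [gr_two h]; rfl
        unfold ns
        rw [e]
        by_cases h8 : b % 8 = 1
        · rw [if_pos h8]; simp [h8]
        · rw [if_neg h8]; simp [h8]
      have hd2 : ¬ ((2 : ℕ) : ℤ) ∣ d 2 := by push_cast; omega
      have hps0 : ps 2 (d 2) = 0 ↔ d 2 % 8 = 1 := by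
        unfold ps
        rw [if_pos rfl]
        by_cases h8 : d 2 % 8 = 1
        · rw [if_neg (by omega)]; simp [h8]
        · rw [if_pos (by omega)]; simp [h8]
      have hps1 : ps 2 (d 2) = 1 ↔ d 2 % 8 = 5 := by
        unfold ps
        rw [if_pos rfl]
        by_cases h8 : d 2 % 8 = 5
        · rw [if_pos (by omega)]; simp [h8]
        · rw [if_neg (by omega)]; simp [h8]
      have hval : Odd (padicValInt 2 c) ↔ vv b c 2 = 1 := by
        rw [vv_eq, ZMod.natCast_eq_one_iff_odd]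
        unfold abc
        rw [val_mul (nd_mul Nat.prime_two ha2 hb2) h.2.1]
      have hcast : ((2 : ℕ) : ℤ) = 2 := rfl
      by_cases h8 : b % 8 = 1
      · rw [if_pos h8, if_pos (hns.2 h8), hps0]
        exact ⟨fun h => ⟨hd2, h⟩, fun h => h.2⟩
      · rw [if_neg h8, if_neg (fun h' => h8 (hns.1 h')), hval, hps1, hcast]
        exact ⟨fun h => ⟨hd2, h⟩, fun h => h.2⟩
  rw [← e]
  exact ⟨fun hL => hN b c (d 0) (d 2) (d 1) h.1 h.2.1 h.2.2.1 ht hL,
    fun hC => hS b c (d 0) (d 2) (d 1) h.1 h.2.1 h.2.2.1 ht hC⟩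

/-- the local condition at a good prime -/
theorem good_iff {b c : ℤ} (h : Adm b c) (d : ℕ → ℤ) (ht : Tri (d 0) (d 2) (d 1)) {p : ℕ}
    [hp : Fact p.Prime] (hP : p ∉ PP b c) (h2 : p ≠ 2) :
    Lk ℚ_[p] 0 ((-b : ℤ) : ℚ_[p]) ((16 * c : ℤ) : ℚ_[p]) (d 0 : ℤ) (d 2 : ℤ) (d 1 : ℤ) ↔
      (¬ (p : ℤ) ∣ d 0 ∧ ¬ (p : ℤ) ∣ d 2) := by
  have h16 := nd_16 hp.out h2
  have habc : ¬ (p : ℤ) ∣ abc b c := fun h' => hP ((mem_PP h).2 ⟨hp.out, h'⟩)
  have hg : ¬ (p : ℤ) ∣ 2 * (-b) * (16 * c) * (-b - 16 * c) := by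
    have h32 : ¬ (p : ℤ) ∣ 32 := by
      intro h'
      have h'' : p ∣ 2 ^ 5 := by exact_mod_cast h'
      exact h2 ((Nat.prime_dvd_prime_iff_eq hp.out Nat.prime_two).1 (hp.out.dvd_of_dvd_pow h''))
    have : 2 * (-b) * (16 * c) * (-b - 16 * c) = 32 * abc b c := by unfold abc; ring
    rw [this]
    exact nd_mul hp.out h32 habc
  rw [← loc_lk ht]
  constructor
  · intro hL
    exact Pool.Agent.W405.SE.goodp_of Pool.Agent.W407.SE.ratp p (-b) (16 * c) (d 0) (d 2) hg ht.1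
      ht.2.1 hL
  · rintro ⟨h3, h4⟩
    exact Pool.Agent.Y105.RZ.GOODS p (-b) (16 * c) (d 0) (d 2) hg h3 h4

/-- the local condition at a bad prime for the classes of a vector -/
lemma CC_DD {b c : ℤ} (h : Adm b c) (x : Option (JJ b c) → ZMod 2) {p : ℕ} (hP : p ∈ PP b c) :
    CC b c p (DD x) ↔ (p ∈ JJ b c → ps p (DD x (gr b c p)) + ns b c p * xx x p = 0) := by
  have hp := ((mem_PP h).1 hP).1
  unfold CC
  have hn : ¬ (p : ℤ) ∣ DD x (gr b c p) := fun h' => ((DD_dvd h x _ hp).1 h').1 rfl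
  have ho : (p : ℤ) ∣ DD x (if gr b c p = 0 then 2 else 0) ↔ xx x p = 1 := by
    rw [DD_dvd h x _ hp]
    refine and_iff_right ?_
    by_cases hg : gr b c p = 0
    · rw [if_pos hg, hg]; norm_num
    · rw [if_neg hg]; exact hg
  rw [ho]
  by_cases hJ : p ∈ JJ b c
  · by_cases hns : ns b c p = 0
    · rw [if_pos hns, hns, zero_mul, add_zero]
      exact ⟨fun h _ => h.2, fun h => ⟨hn, h hJ⟩⟩
    · have hns1 : ns b c p = 1 := (z2 _).resolve_left hns
      have hv : vv b c p = 1 := (mem_filter.1 hJ).2.resolve_left hns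
      rw [if_neg hns, hns1, one_mul, hv]
      have key : ∀ u v : ZMod 2, (u = 1 ↔ ((1 : ZMod 2) = 1 ∧ v = 1)) ↔ v + u = 0 := by decide
      rw [key]
      exact ⟨fun h _ => h.2, fun h => ⟨hn, h hJ⟩⟩
  · have hns : ns b c p = 1 := by
      rcases z2 (ns b c p) with h0 | h0
      · exact absurd (mem_filter.2 ⟨hP, Or.inl h0⟩) hJ
      · exact h0
    have hv : vv b c p = 0 := by
      rcases z2 (vv b c p) with h0 | h0
      · exact h0
      · exact absurd (mem_filter.2 ⟨hP, Or.inr h0⟩) hJ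
    have hx : xx x p = 0 := by
      unfold xx
      rw [dif_neg hJ]
    rw [if_neg (by rw [hns]; decide), hv, hx]
    constructor
    · intro _ h'; exact absurd h' hJ
    · intro _
      exact ⟨hn, fun h => absurd h (by decide), fun h => absurd h.1 (by decide)⟩

/-- **The Selmer classes of a vector.** -/
theorem sel_iff {b c : ℤ} (h : Adm b c) (hc : 0 < c) (x : Option (JJ b c) → ZMod 2) :
    (DD x 0, DD x 2) ∈ Sel (-b) (16 * c) ↔ x ∈ Ker (Mx b c) := by
  have ht := DD_tri h x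
  have hb0 := Adm.bz h
  rw [ker_iff h]
  have he4 : DD x 2 % 4 = 1 ↔ e4 (DD x 2) = 0 := by
    have := (DD_e4 h x).1
    unfold e4
    by_cases h4 : DD x 2 % 4 = 3
    · rw [if_pos h4]
      exact ⟨fun h => by omega, fun h => absurd h (by decide)⟩
    · rw [if_neg h4]
      exact ⟨fun _ => rfl, fun _ => by omega⟩
  constructor
  · rintro ⟨-, -, -, hL⟩
    have hf2 : Fact (Nat.Prime 2) := ⟨Nat.prime_two⟩
    have h2 := (two_iff h (DD x) ht).1 ((loc_lk ht).1 (hL 2))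
    refine ⟨he4.1 h2.1, fun p hp => ?_⟩
    have hP := J_mem hp
    have hpf : Fact p.Prime := ⟨((mem_PP h).1 hP).1⟩
    by_cases hp2 : p = 2
    · subst hp2
      have h3 := h2.2
      rw [if_pos hP, CC_DD h x hP] at h3
      exact h3 hp
    · have h3 := (odd_iff h (DD x) ht hP hp2).1 ((loc_lk ht).1 (hL p))
      rw [CC_DD h x hP] at h3
      exact h3 hp
  · rintro ⟨h0, h1⟩
    refine ⟨ht.1, ht.2.1, ?_, ?_⟩
    · rw [loc_lk ht]
      have hR := Pool.Agent.K1H69.PS.t_REAL b c (DD x 0) (DD x 2) (DD x 1) hb0 hc h.2.2.1 ht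
      rw [hR]
      have s0 := DD_sg h x 0
      have s2 := DD_sg h x 2
      unfold sw at s0 s2
      have pos : ∀ n : ℤ, n ≠ 0 → sg n = 0 → 0 < n := by
        intro n hn hs
        unfold sg at hs
        by_contra hcon
        rw [if_pos (by omega)] at hs
        exact absurd hs (by decide)
      by_cases hb : 0 < b
      · rw [if_pos hb]
        apply pos _ ht.2.1.ne_zero
        rw [s2, sg_pos hb]
        norm_num
      · rw [if_neg hb]
        apply pos _ ht.1.ne_zero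
        have : sg b = 1 := by unfold sg; rw [if_pos (by omega)]
        rw [s0, this, if_pos rfl]
        generalize x none = t
        revert t
        decide
    · intro p hp
      rw [loc_lk ht]
      by_cases hp2 : p = 2
      · subst hp2
        refine (two_iff h (DD x) ht).2 ⟨he4.2 h0, ?_⟩
        by_cases hP : 2 ∈ PP b c
        · rw [if_pos hP, CC_DD h x hP]
          exact fun hJ => h1 2 hJ
        · rw [if_neg hP]
          intro hd
          have := (DD_dvd h x 0 Nat.prime_two).1 (by exact_mod_cast hd)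
          exact hP (J_mem (xx_J this.2))
      · by_cases hP : p ∈ PP b c
        · rw [odd_iff h (DD x) ht hP hp2, CC_DD h x hP]
          exact fun hJ => h1 p hJ
        · rw [good_iff h (DD x) ht hP hp2]
          exact ⟨fun hd => hP (J_mem (xx_J ((DD_dvd h x 0 hp.out).1 hd).2)),
            fun hd => hP (J_mem (xx_J ((DD_dvd h x 2 hp.out).1 hd).2))⟩

/-- Every Selmer class comes from a vector. -/
theorem sel_surj {b c : ℤ} (h : Adm b c) (hc : 0 < c) {z : ℤ × ℤ} (hz : z ∈ Sel (-b) (16 * c)) :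
    ∃ x : Option (JJ b c) → ZMod 2, DD x 0 = z.1 ∧ DD x 2 = z.2 := by
  obtain ⟨z1, z2⟩ := z
  obtain ⟨hs1, hs2, hR, hL⟩ := hz
  simp only at hs1 hs2 hR hL ⊢
  have hb0 := Adm.bz h
  obtain ⟨d3, t, hs3, ht0, he, -, -⟩ :=
    Pool.Agent.Y212.RZ.exists_sf (z1 * z2) (mul_ne_zero hs1.ne_zero hs2.ne_zero)
  obtain ⟨d, hd⟩ : ∃ d : ℕ → ℤ, d = fun g => if g = 0 then z1 else if g = 2 then z2 else d3 :=
    ⟨_, rfl⟩
  have e0 : d 0 = z1 := by rw [hd]; rfl
  have e1 : d 1 = d3 := by rw [hd]; rfl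
  have e2 : d 2 = z2 := by rw [hd]; rfl
  have ht : Tri (d 0) (d 2) (d 1) := by
    rw [e0, e1, e2]
    exact ⟨hs1, hs2, hs3, d3 * t, by rw [he]; ring⟩
  have n10 : ¬ (1 : ZMod 2) = 0 := by decide
  have n01 : ¬ (0 : ZMod 2) = 1 := by decide
  have hf2 : Fact (Nat.Prime 2) := ⟨Nat.prime_two⟩
  have hL' : ∀ (p : ℕ) [Fact p.Prime],
      Lk ℚ_[p] 0 ((-b : ℤ) : ℚ_[p]) ((16 * c : ℤ) : ℚ_[p]) (d 0 : ℤ) (d 2 : ℤ) (d 1 : ℤ) := by
    intro p hp
    rw [← loc_lk ht, e0, e2]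
    exact hL p
  have h2 := (two_iff h d ht).1 (hL' 2)
  have hCC : ∀ p ∈ PP b c, CC b c p d := by
    intro p hP
    have hpf : Fact p.Prime := ⟨((mem_PP h).1 hP).1⟩
    by_cases hp2 : p = 2
    · subst hp2
      have h3 := h2.2
      rwa [if_pos hP] at h3
    · exact (odd_iff h d ht hP hp2).1 (hL' p)
  obtain ⟨x, hx⟩ := DD_surj h d ht (by
    intro p hp g hg hdv
    have hpf : Fact p.Prime := ⟨hp⟩
    have t0 := tri_two ht hp
    have t2 := tri_two ht.r hp
    have t1 := tri_two ht.r.r hp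
    have nd : ¬ (p : ℤ) ∣ d 0 → ¬ (p : ℤ) ∣ d 2 → False := by
      intro n0 n2
      interval_cases g
      · exact n0 hdv
      · rcases t1 hdv with h' | h'
        · exact n0 h'
        · exact n2 h'
      · exact n2 hdv
    by_cases hP : p ∈ PP b c
    · have hC := hCC p hP
      unfold CC at hC
      refine ⟨?_, fun hg' => ?_⟩
      · by_contra hJ
        have hns : ns b c p = 1 := by
          rcases PS.z2 (ns b c p) with h0 | h0
          · exact absurd (mem_filter.2 ⟨hP, Or.inl h0⟩) hJ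
          · exact h0
        have hv : vv b c p = 0 := by
          rcases PS.z2 (vv b c p) with h0 | h0
          · exact h0
          · exact absurd (mem_filter.2 ⟨hP, Or.inr h0⟩) hJ
        rw [if_neg (by rw [hns]; exact n10), hv] at hC
        obtain ⟨c1, c2⟩ := hC
        have c3 : ¬ (p : ℤ) ∣ d (if gr b c p = 0 then 2 else 0) := fun h' =>
          n01 (c2.1 h').1
        rcases gr_spec h hP with ⟨g1, -⟩ | ⟨g1, -⟩ | ⟨g1, -⟩
        · rw [g1, if_pos rfl] at c3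
          rw [g1] at c1
          exact nd c1 c3
        · rw [g1, if_neg (by norm_num)] at c3
          rw [g1] at c1
          refine nd c3 fun h' => ?_
          rcases t2 h' with h'' | h''
          · exact c1 h''
          · exact c3 h''
        · rw [g1, if_neg (by norm_num)] at c3
          rw [g1] at c1
          exact nd c3 c1
      · rw [← hg'] at hdv
        exact hC.1 hdv
    · exfalso
      by_cases hp2 : p = 2
      · subst hp2
        have h3 := h2.2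
        rw [if_neg hP] at h3
        refine nd (by exact_mod_cast h3) ?_
        have := h2.1
        push_cast
        omega
      · obtain ⟨h3, h4⟩ := (good_iff h d ht hP hp2).1 (hL' p)
        exact nd h3 h4) (by
    have hR' := Pool.Agent.K1H69.PS.t_REAL b c (d 0) (d 2) (d 1) hb0 hc h.2.2.1 ht
    rw [← hR', ← loc_lk ht, e0, e2]
    exact hR)
  exact ⟨x, by rw [hx 0 (by norm_num), e0], by rw [hx 2 (by norm_num), e2]⟩

/-- **The parity of the dimension of the 2-Selmer group is the root number.** -/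
theorem sel_card {b c : ℤ} (h : Adm b c) (hc : 0 < c) :
    (Sel (-b) (16 * c)).Finite ∧ ∃ k : ℕ, (Sel (-b) (16 * c)).ncard = 2 ^ k ∧ (-1 : ℤ) ^ k = w b c := by
  have e : Sel (-b) (16 * c) = (fun x => (DD x 0, DD x 2)) '' (Ker (Mx b c) : Set (Option (JJ b c) → ZMod 2)) := by
    ext z
    constructor
    · intro hz
      obtain ⟨x, h0, h2⟩ := sel_surj h hc hz
      have hzz : (DD x 0, DD x 2) = z := by rw [h0, h2]
      refine ⟨x, ?_, hzz⟩
      rw [SetLike.mem_coe, ← sel_iff h hc, hzz]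
      exact hz
    · rintro ⟨x, hx, rfl⟩
      exact (sel_iff h hc x).2 hx
  obtain ⟨k, h1, h2⟩ := ent h hc
  refine ⟨by rw [e]; exact (Set.toFinite _).image _, k, ?_, h2⟩
  rw [e, Set.ncard_image_of_injective, ← h1]
  · rfl
  · intro x y hxy
    simp only [Prod.mk.injEq] at hxy
    exact DD_inj h hxy.1 hxy.2

end Pool.Agent.K1H81.PS
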