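import Mathlib

/-!
# The quadratic characters, additively (helper81)
-/

set_option autoImplicit false

namespace Pool.Agent.K1H81.PS

open Finset

/-- `1` if `n` is not a square modulo `p` (for `p = 2`: `n` is `3` or `5` modulo 8) -/
def ps (p : ℕ) (n : ℤ) : ZMod 2 :=
  if p = 2 then (if n % 8 = 3 ∨ n % 8 = 5 then 1 else 0) else (if jacobiSym n p = -1 then 1 else 0)

/-- `1` if `n` is `3` modulo 4 -/
def e4 (n : ℤ) : ZMod 2 := if n % 4 = 3 then 1 else 0

lemma odd_of_nd {n : ℤ} (h : ¬ ((2 : ℕ) : ℤ) ∣ n) : n % 2 = 1 := by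
  push_cast at h
  omega

lemma e4_mul {m n : ℤ} (hm : m % 2 = 1) (hn : n % 2 = 1) : e4 (m * n) = e4 m + e4 n := by
  unfold e4
  have h1 : m % 4 = 1 ∨ m % 4 = 3 := by omega
  have h2 : n % 4 = 1 ∨ n % 4 = 3 := by omega
  have h3 : (m * n) % 4 = ((m % 4) * (n % 4)) % 4 := Int.mul_emod m n 4
  rcases h1 with h1 | h1 <;> rcases h2 with h2 | h2 <;> rw [h3, h1, h2] <;> decide

lemma nd_mul {p : ℕ} (hp : p.Prime) {m n : ℤ} (hm : ¬ (p : ℤ) ∣ m) (hn : ¬ (p : ℤ) ∣ n) :
    ¬ (p : ℤ) ∣ m * n := by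
  intro h
  rcases (Nat.prime_iff_prime_int.1 hp).dvd_or_dvd h with h | h
  · exact hm h
  · exact hn h

lemma jac_pm {p : ℕ} (hp : p.Prime) {n : ℤ} (hn : ¬ (p : ℤ) ∣ n) :
    jacobiSym n p = 1 ∨ jacobiSym n p = -1 := by
  apply jacobiSym.eq_one_or_neg_one
  rw [← Int.isCoprime_iff_gcd_eq_one]
  exact ((Nat.prime_iff_prime_int.1 hp).coprime_iff_not_dvd.2 hn).symm

lemma ps_mul {p : ℕ} (hp : p.Prime) {m n : ℤ} (hm : ¬ (p : ℤ) ∣ m) (hn : ¬ (p : ℤ) ∣ n) :
    ps p (m * n) = ps p m + ps p n := by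
  unfold ps
  by_cases h2 : p = 2
  · subst h2
    have hm' := odd_of_nd hm
    have hn' := odd_of_nd hn
    rw [if_pos rfl, if_pos rfl, if_pos rfl]
    have h1 : m % 8 = 1 ∨ m % 8 = 3 ∨ m % 8 = 5 ∨ m % 8 = 7 := by omega
    have h2 : n % 8 = 1 ∨ n % 8 = 3 ∨ n % 8 = 5 ∨ n % 8 = 7 := by omega
    have h3 : (m * n) % 8 = ((m % 8) * (n % 8)) % 8 := Int.mul_emod m n 8
    rcases h1 with h1 | h1 | h1 | h1 <;> rcases h2 with h2 | h2 | h2 | h2 <;> rw [h3, h1, h2] <;>
      decide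
  · rw [if_neg h2, if_neg h2, if_neg h2, jacobiSym.mul_left]
    rcases jac_pm hp hm with h1 | h1 <;> rcases jac_pm hp hn with h3 | h3 <;> rw [h1, h3] <;> decide

lemma ps_one (p : ℕ) : ps p 1 = 0 := by
  unfold ps
  split_ifs with h1 h2 h3
  · norm_num at h2
  · rfl
  · rw [jacobiSym.one_left] at h3
    norm_num at h3
  · rfl

lemma e4_one : e4 1 = 0 := by decide

lemma ps_neg_one {p : ℕ} (hp : p.Prime) : ps p (-1) = e4 p := by
  unfold ps e4
  by_cases h2 : p = 2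
  · subst h2
    decide
  · rw [if_neg h2]
    have : Fact p.Prime := ⟨hp⟩
    have hodd : p % 2 = 1 := hp.eq_two_or_odd.resolve_left h2
    rw [jacobiSym.at_neg_one (Nat.odd_iff.2 hodd)]
    rcases (by omega : p % 4 = 1 ∨ p % 4 = 3) with h | h
    · rw [ZMod.χ₄_nat_one_mod_four h, if_neg (by norm_num), if_neg (by omega)]
    · rw [ZMod.χ₄_nat_three_mod_four h, if_pos rfl, if_pos (by omega)]

lemma ps_congr {p : ℕ} (h2 : p ≠ 2) {m n : ℤ} (h : (p : ℤ) ∣ m - n) : ps p m = ps p n := by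
  unfold ps
  rw [if_neg h2, if_neg h2]
  have : jacobiSym m p = jacobiSym n p := by
    apply jacobiSym.mod_left'
    exact (Int.modEq_iff_dvd.2 h).symm
  rw [this]

lemma ps_sq {p : ℕ} (hp : p.Prime) {n : ℤ} (hn : ¬ (p : ℤ) ∣ n) : ps p (n ^ 2) = 0 := by
  rw [pow_two, ps_mul hp hn hn]
  have : ∀ u : ZMod 2, u + u = 0 := by decide
  exact this _

/-- quadratic reciprocity -/
lemma ps_recip {p q : ℕ} (hp : p.Prime) (hq : q.Prime) (hpq : p ≠ q) :
    ps p q + ps q p = e4 p * e4 q := by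
  have two : ∀ {p q : ℕ}, p.Prime → q.Prime → p ≠ q → p = 2 → ps p q + ps q p = e4 p * e4 q := by
    rintro p q hp hq hpq rfl
    have hq2 : q ≠ 2 := fun h => hpq h.symm
    have hqo : q % 2 = 1 := hq.eq_two_or_odd.resolve_left hq2
    have e : ps q ((2 : ℕ) : ℤ) = ps 2 (q : ℤ) := by
      unfold ps
      rw [if_neg hq2, if_pos rfl]
      have h1 : jacobiSym ((2 : ℕ) : ℤ) q = ZMod.χ₈ q := by
        have := jacobiSym.at_two (Nat.odd_iff.2 hqo)
        push_cast
        exact this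
      rw [h1]
      have h2 := ZMod.χ₈_nat_eq_if_mod_eight q
      by_cases h3 : q % 8 = 1 ∨ q % 8 = 7
      · have h4 : ZMod.χ₈ (q : ZMod 8) = 1 := by
          rw [h2, if_neg (by omega), if_pos h3]
        rw [h4, if_neg (by norm_num), if_neg (by omega)]
      · have h4 : ZMod.χ₈ (q : ZMod 8) = -1 := by
          rw [h2, if_neg (by omega), if_neg h3]
        rw [h4, if_pos rfl, if_pos (by omega)]
    rw [e]
    have h4 : e4 ((2 : ℕ) : ℤ) = 0 := by decide
    rw [h4, zero_mul]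
    have : ∀ u : ZMod 2, u + u = 0 := by decide
    exact this _
  by_cases h2 : p = 2
  · exact two hp hq hpq h2
  by_cases h2' : q = 2
  · rw [add_comm, mul_comm]
    exact two hq hp hpq.symm h2'
  have : Fact p.Prime := ⟨hp⟩
  have : Fact q.Prime := ⟨hq⟩
  have hpo : p % 2 = 1 := hp.eq_two_or_odd.resolve_left h2
  have hqo : q % 2 = 1 := hq.eq_two_or_odd.resolve_left h2'
  unfold ps e4
  rw [if_neg h2, if_neg h2']
  have hqp : ¬ (q : ℤ) ∣ (p : ℤ) := by
    intro h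
    have h' : q ∣ p := by exact_mod_cast h
    exact hpq ((Nat.prime_dvd_prime_iff_eq hq hp).1 h').symm
  rcases (by omega : p % 4 = 1 ∨ p % 4 = 3) with h | h
  · have h3 := jacobiSym.quadratic_reciprocity_one_mod_four h (Nat.odd_iff.2 hqo)
    rw [h3]
    have h5 : ¬ ((p : ℕ) : ℤ) % 4 = 3 := by omega
    rw [if_neg h5, zero_mul]
    have : ∀ u : ZMod 2, u + u = 0 := by decide
    exact this _
  · rcases (by omega : q % 4 = 1 ∨ q % 4 = 3) with h' | h'
    · have h3 := jacobiSym.quadratic_reciprocity_one_mod_four' (Nat.odd_iff.2 hpo) h'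
      rw [h3]
      have h5 : ¬ ((q : ℕ) : ℤ) % 4 = 3 := by omega
      rw [if_neg h5, mul_zero]
      have : ∀ u : ZMod 2, u + u = 0 := by decide
      exact this _
    · have h3 := jacobiSym.quadratic_reciprocity_three_mod_four h h'
      rw [h3]
      have h5 : ((p : ℕ) : ℤ) % 4 = 3 := by omega
      have h6 : ((q : ℕ) : ℤ) % 4 = 3 := by omega
      rw [if_pos h5, if_pos h6]
      have hpq' : ¬ (p : ℤ) ∣ (q : ℤ) := by
        intro h
        have h' : p ∣ q := by exact_mod_cast h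
        exact hpq ((Nat.prime_dvd_prime_iff_eq hp hq).1 h')
      rcases jac_pm hp hpq' with h8 | h8
      · rw [h8]; decide
      · rw [h8]; decide

/-- the characters of a product of primes -/
lemma ps_prod {p : ℕ} (hp : p.Prime) (S : Finset ℕ) (hS : ∀ q ∈ S, q.Prime ∧ q ≠ p) (k : ℕ → ℕ) :
    (¬ (p : ℤ) ∣ ((∏ q ∈ S, q ^ k q : ℕ) : ℤ)) ∧
    ps p ((∏ q ∈ S, q ^ k q : ℕ) : ℤ) = ∑ q ∈ S, ((k q : ℕ) : ZMod 2) * ps p q := by
  classical
  induction S using Finset.induction_on with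
  | empty =>
    rw [prod_empty, sum_empty]
    push_cast
    refine ⟨?_, ps_one p⟩
    intro h
    exact (Nat.prime_iff_prime_int.1 hp).not_isUnit (isUnit_of_dvd_one h)
  | insert r S hr ih =>
    obtain ⟨hrp, hrne⟩ := hS r (mem_insert_self _ _)
    obtain ⟨i1, i2⟩ := ih fun q hq => hS q (mem_insert_of_mem hq)
    rw [prod_insert hr, sum_insert hr]
    have hnd : ¬ (p : ℤ) ∣ (r : ℤ) := by
      intro h
      have h' : p ∣ r := by exact_mod_cast h
      exact hrne ((Nat.prime_dvd_prime_iff_eq hp hrp).1 h').symm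
    have hpow : ∀ n : ℕ, ¬ (p : ℤ) ∣ (r : ℤ) ^ n ∧ ps p ((r : ℤ) ^ n) = (n : ZMod 2) * ps p r := by
      intro n
      induction n with
      | zero =>
        rw [pow_zero]
        refine ⟨?_, by rw [ps_one]; simp⟩
        intro h
        exact (Nat.prime_iff_prime_int.1 hp).not_isUnit (isUnit_of_dvd_one h)
      | succ n ihn =>
        rw [pow_succ]
        refine ⟨nd_mul hp ihn.1 hnd, ?_⟩
        rw [ps_mul hp ihn.1 hnd, ihn.2]
        push_cast
        ring
    obtain ⟨j1, j2⟩ := hpow (k r)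
    push_cast at i1 i2 ⊢
    refine ⟨nd_mul hp j1 i1, ?_⟩
    rw [ps_mul hp j1 i1, j2, i2]

lemma e4_prod (S : Finset ℕ) (hS : ∀ q ∈ S, q.Prime ∧ q ≠ 2) (k : ℕ → ℕ) :
    (((∏ q ∈ S, q ^ k q : ℕ) : ℤ)) % 2 = 1 ∧
    e4 ((∏ q ∈ S, q ^ k q : ℕ) : ℤ) = ∑ q ∈ S, ((k q : ℕ) : ZMod 2) * e4 q := by
  classical
  induction S using Finset.induction_on with
  | empty =>
    rw [prod_empty, sum_empty]
    exact ⟨by norm_num, by decide⟩
  | insert r S hr ih =>
    obtain ⟨hrp, hrne⟩ := hS r (mem_insert_self _ _)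
    obtain ⟨i1, i2⟩ := ih fun q hq => hS q (mem_insert_of_mem hq)
    rw [prod_insert hr, sum_insert hr]
    have hro : (r : ℤ) % 2 = 1 := by
      have := hrp.eq_two_or_odd.resolve_left hrne
      omega
    have hmo : ∀ {m n : ℤ}, m % 2 = 1 → n % 2 = 1 → (m * n) % 2 = 1 := by
      intro m n hm hn
      rw [Int.mul_emod, hm, hn]
      norm_num
    have hpow : ∀ n : ℕ, ((r : ℤ) ^ n) % 2 = 1 ∧ e4 ((r : ℤ) ^ n) = (n : ZMod 2) * e4 r := by
      intro n
      induction n with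
      | zero =>
        rw [pow_zero]
        exact ⟨by norm_num, by rw [e4_one]; simp⟩
      | succ n ihn =>
        rw [pow_succ]
        refine ⟨hmo ihn.1 hro, ?_⟩
        rw [e4_mul ihn.1 hro, ihn.2]
        push_cast
        ring
    obtain ⟨j1, j2⟩ := hpow (k r)
    push_cast at i1 i2 ⊢
    refine ⟨hmo j1 i1, ?_⟩
    rw [e4_mul j1 i1, j2, i2]

/-- the characters of an integer from its factorization -/
lemma ps_fact {p : ℕ} (hp : p.Prime) {n : ℤ} (hn : n ≠ 0) (hpn : ¬ (p : ℤ) ∣ n) :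
    ps p |n| = ∑ q ∈ n.natAbs.primeFactors, ((n.natAbs.factorization q : ℕ) : ZMod 2) * ps p q := by
  have h0 : n.natAbs ≠ 0 := Int.natAbs_ne_zero.2 hn
  have h1 := (ps_prod hp n.natAbs.primeFactors (fun q hq => ⟨Nat.prime_of_mem_primeFactors hq, by
    rintro rfl
    exact hpn (Int.natCast_dvd.2 (Nat.dvd_of_mem_primeFactors hq))⟩) (fun q => n.natAbs.factorization q)).2
  have h2 : ∏ q ∈ n.natAbs.primeFactors, q ^ n.natAbs.factorization q = n.natAbs :=
    Nat.prod_factorization_pow_eq_self h0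
  rw [h2] at h1
  rw [Int.abs_eq_natAbs]
  exact h1

lemma e4_fact {n : ℤ} (hn : n % 2 = 1) :
    e4 |n| = ∑ q ∈ n.natAbs.primeFactors, ((n.natAbs.factorization q : ℕ) : ZMod 2) * e4 q := by
  have h0 : n.natAbs ≠ 0 := by omega
  have h1 := (e4_prod n.natAbs.primeFactors (fun q hq => ⟨Nat.prime_of_mem_primeFactors hq, by
    rintro rfl
    have := Nat.dvd_of_mem_primeFactors hq
    omega⟩) (fun q => n.natAbs.factorization q)).2
  have h2 : ∏ q ∈ n.natAbs.primeFactors, q ^ n.natAbs.factorization q = n.natAbs :=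
    Nat.prod_factorization_pow_eq_self h0
  rw [h2] at h1
  rw [Int.abs_eq_natAbs]
  exact h1

end Pool.Agent.K1H81.PS
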