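import Pool.Agent.K1H81.PS.Cls

/-!
# The triples of classes (helper81)
-/

set_option autoImplicit false

namespace Pool.Agent.K1H81.PS

open Finset Pool.Agent.K1H81.RN

/-- the triple is determined by its product with a square -/
lemma tri_two {d1 d2 d3 : ℤ} (h : Tri d1 d2 d3) {p : ℕ} (hp : p.Prime) (h1 : (p : ℤ) ∣ d1) :
    (p : ℤ) ∣ d2 ∨ (p : ℤ) ∣ d3 := by
  obtain ⟨s1, s2, s3, k, hk⟩ := h
  have hpp := Nat.prime_iff_prime_int.1 hp
  by_contra hcon
  rw [not_or] at hcon
  have h2 : (p : ℤ) ∣ k := by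
    apply hpp.dvd_of_dvd_pow (n := 2)
    rw [← hk, mul_assoc]
    exact Dvd.dvd.mul_right h1 _
  obtain ⟨m, hm⟩ := h2
  obtain ⟨n, hn⟩ := h1
  have h3 : (p : ℤ) ∣ n := by
    have e : n * d2 * d3 = (p : ℤ) * m ^ 2 := by
      apply mul_left_cancel₀ hpp.ne_zero
      rw [hm, hn] at hk
      linear_combination hk
    have h4 : (p : ℤ) ∣ n * d2 * d3 := ⟨_, e⟩
    rcases hpp.dvd_or_dvd h4 with h5 | h5
    · rcases hpp.dvd_or_dvd h5 with h6 | h6
      · exact h6
      · exact absurd h6 hcon.1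
    · exact absurd h5 hcon.2
  obtain ⟨n', hn'⟩ := h3
  have h5 : (p : ℤ) * p ∣ d1 := ⟨n', by rw [hn, hn']; ring⟩
  exact hpp.not_isUnit (s1 _ h5)

lemma Tri.r {d1 d2 d3 : ℤ} (h : Tri d1 d2 d3) : Tri d2 d3 d1 :=
  ⟨h.2.1, h.2.2.1, h.1, h.2.2.2.imp fun k hk => by rw [← hk]; ring⟩

lemma Tri.s {d1 d2 d3 : ℤ} (h : Tri d1 d2 d3) : Tri d1 d3 d2 :=
  ⟨h.1, h.2.2.1, h.2.1, h.2.2.2.imp fun k hk => by rw [← hk]; ring⟩

/-- the signs -/
lemma tri_sg {d1 d2 d3 : ℤ} (h : Tri d1 d2 d3) : sg d1 + sg d2 + sg d3 = 0 := by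
  obtain ⟨s1, s2, s3, k, hk⟩ := h
  have n1 := s1.ne_zero
  have n2 := s2.ne_zero
  have n3 := s3.ne_zero
  have h0 : 0 ≤ d1 * d2 * d3 := by rw [hk]; positivity
  unfold sg
  rcases lt_or_gt_of_ne n1 with a1 | a1 <;> rcases lt_or_gt_of_ne n2 with a2 | a2 <;>
    rcases lt_or_gt_of_ne n3 with a3 | a3
  · exfalso
    have := mul_neg_of_pos_of_neg (mul_pos_of_neg_of_neg a1 a2) a3
    omega
  · rw [if_pos a1, if_pos a2, if_neg (not_lt.2 a3.le)]; decide
  · rw [if_pos a1, if_pos a3, if_neg (not_lt.2 a2.le)]; decide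
  · exfalso
    have := mul_neg_of_neg_of_pos (mul_neg_of_neg_of_pos a1 a2) a3
    omega
  · rw [if_pos a2, if_pos a3, if_neg (not_lt.2 a1.le)]; decide
  · exfalso
    have := mul_neg_of_neg_of_pos (mul_neg_of_pos_of_neg a1 a2) a3
    omega
  · exfalso
    have := mul_neg_of_pos_of_neg (mul_pos a1 a2) a3
    omega
  · rw [if_neg (not_lt.2 a1.le), if_neg (not_lt.2 a2.le), if_neg (not_lt.2 a3.le)]; decide

lemma sqf_eq {n : ℤ} (h : Squarefree n) :
    n = sn (sg n) * ((∏ q ∈ n.natAbs.primeFactors, q : ℕ) : ℤ) := by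
  have h1 : ∏ q ∈ n.natAbs.primeFactors, q = n.natAbs :=
    Nat.prod_primeFactors_of_squarefree (Int.squarefree_natAbs.2 h)
  rw [h1]
  unfold sg
  by_cases h2 : n < 0
  · rw [if_pos h2]
    have : sn 1 = -1 := by decide
    rw [this]
    omega
  · rw [if_neg h2]
    have : sn 0 = 1 := by decide
    rw [this]
    omega

/-- the classes form a triple -/
lemma DD_tri {b c : ℤ} (h : Adm b c) (x : Option (JJ b c) → ZMod 2) :
    Tri (DD x 0) (DD x 2) (DD x 1) := by
  obtain ⟨T, hT⟩ : ∃ T, T = (JJ b c).filter (fun q => xx x q = 1) := ⟨_, rfl⟩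
  refine ⟨DD_sqf h x 0, DD_sqf h x 2, DD_sqf h x 1, ((∏ q ∈ T, q : ℕ) : ℤ), ?_⟩
  have e : ∀ g, SS g x = T.filter (fun q => gr b c q ≠ g) := by
    intro g
    unfold SS
    rw [hT, filter_filter]
    exact filter_congr fun q _ => and_comm
  have h1 : (∏ q ∈ SS 0 x, q) * (∏ q ∈ SS 2 x, q) * (∏ q ∈ SS 1 x, q) = (∏ q ∈ T, q) ^ 2 := by
    rw [e, e, e, prod_filter, prod_filter, prod_filter, ← prod_mul_distrib, ← prod_mul_distrib,
      ← prod_pow]
    refine prod_congr rfl fun q hq => ?_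
    rw [hT] at hq
    rcases gr_spec h (J_mem (mem_filter.1 hq).1) with ⟨g1, -⟩ | ⟨g1, -⟩ | ⟨g1, -⟩
    · rw [g1, if_neg (by norm_num), if_pos (by norm_num), if_pos (by norm_num)]; ring
    · rw [g1, if_pos (by norm_num), if_pos (by norm_num), if_neg (by norm_num)]; ring
    · rw [g1, if_pos (by norm_num), if_neg (by norm_num), if_pos (by norm_num)]; ring
  have h2 : sn (sw b 0 * x none) * sn (sw b 2 * x none) * sn (sw b 1 * x none) = 1 := by
    rw [← sn_add, ← sn_add]
    unfold sw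
    generalize sg b = y
    generalize x none = t
    revert y t
    decide
  have h3 : (((∏ q ∈ SS 0 x, q : ℕ) : ℤ) * ((∏ q ∈ SS 2 x, q : ℕ) : ℤ)) * ((∏ q ∈ SS 1 x, q : ℕ) : ℤ) =
      ((∏ q ∈ T, q : ℕ) : ℤ) ^ 2 := by exact_mod_cast h1
  unfold DD
  rw [← h3]
  linear_combination (((∏ q ∈ SS 0 x, q : ℕ) : ℤ) * ((∏ q ∈ SS 2 x, q : ℕ) : ℤ)) *
    ((∏ q ∈ SS 1 x, q : ℕ) : ℤ) * h2

/-- the classes determine the vector -/
lemma DD_inj {b c : ℤ} (h : Adm b c) {x y : Option (JJ b c) → ZMod 2} (h0 : DD x 0 = DD y 0)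
    (h2 : DD x 2 = DD y 2) : x = y := by
  have hn : x none = y none := by
    have a0 := DD_sg h x 0
    have b0 := DD_sg h y 0
    have a2 := DD_sg h x 2
    have b2 := DD_sg h y 2
    rw [h0, b0] at a0
    rw [h2, b2] at a2
    unfold sw at a0 a2
    revert a0 a2
    generalize sg b = s
    generalize x none = u
    generalize y none = v
    revert s u v
    decide
  funext i
  rcases i with _ | q
  · exact hn
  · have hq := ((mem_PP h).1 (J_mem q.2)).1
    have ex := xx_some x q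
    have ey := xx_some y q
    rw [← ex, ← ey]
    have key : (xx x q = 1 ↔ xx y q = 1) := by
      by_cases hg : gr b c q = 0
      · have e1 := DD_dvd h x 2 hq
        have e2 := DD_dvd h y 2 hq
        rw [h2, e2] at e1
        constructor
        · intro h3; exact (e1.2 ⟨by rw [hg]; norm_num, h3⟩).2
        · intro h3; exact (e1.1 ⟨by rw [hg]; norm_num, h3⟩).2
      · have e1 := DD_dvd h x 0 hq
        have e2 := DD_dvd h y 0 hq
        rw [h0, e2] at e1
        constructor
        · intro h3; exact (e1.2 ⟨hg, h3⟩).2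
        · intro h3; exact (e1.1 ⟨hg, h3⟩).2
    rcases z2 (xx x q) with h3 | h3 <;> rcases z2 (xx y q) with h4 | h4
    · rw [h3, h4]
    · rw [h3, h4] at key
      exact absurd (key.2 rfl) (by decide)
    · rw [h3, h4] at key
      exact absurd (key.1 rfl) (by decide)
    · rw [h3, h4]

/-- every triple with the right supports and signs comes from a vector -/
lemma DD_surj {b c : ℤ} (h : Adm b c) (d : ℕ → ℤ) (ht : Tri (d 0) (d 2) (d 1))
    (hs : ∀ p : ℕ, p.Prime → ∀ g, g < 3 → (p : ℤ) ∣ d g → p ∈ JJ b c ∧ gr b c p ≠ g)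
    (hsg : if 0 < b then 0 < d 2 else 0 < d 0) :
    ∃ x : Option (JJ b c) → ZMod 2, ∀ g, g < 3 → DD x g = d g := by
  classical
  obtain ⟨x, hx⟩ : ∃ x : Option (JJ b c) → ZMod 2, x = fun i => match i with
      | none => sg (d 1)
      | some q => if (q : ℤ) ∣ d 0 ∨ (q : ℤ) ∣ d 1 ∨ (q : ℤ) ∣ d 2 then 1 else 0 := ⟨_, rfl⟩
  refine ⟨x, fun g hg => ?_⟩
  have hsf : Squarefree (d g) := by
    interval_cases g
    · exact ht.1
    · exact ht.2.2.1
    · exact ht.2.1
  have h1 : sw b g * x none = sg (d g) := by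
    have e : x none = sg (d 1) := by rw [hx]
    rw [e]
    have e1 := tri_sg ht
    have hb : sg b = if 0 < b then 0 else 1 := by
      unfold sg
      have := Adm.bz h
      by_cases h1 : 0 < b
      · rw [if_pos h1, if_neg (by omega)]
      · rw [if_neg h1, if_pos (by omega)]
    unfold sw
    by_cases hb0 : 0 < b
    · rw [if_pos hb0] at hsg hb
      rw [hb]
      have e2 := sg_pos hsg
      rw [e2] at e1 
      interval_cases g
      · norm_num
        revert e1
        generalize sg (d 0) = u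
        generalize sg (d 1) = v
        revert u v; decide
      · norm_num
      · norm_num
        exact e2.symm
    · rw [if_neg hb0] at hsg hb
      rw [hb]
      have e2 := sg_pos hsg
      rw [e2] at e1 
      interval_cases g
      · norm_num
        rw [e2]
        generalize sg (d 1) = v
        revert v; decide
      · norm_num
      · norm_num
        revert e1
        generalize sg (d 2) = u
        generalize sg (d 1) = v
        revert u v; decide
  have h2 : SS g x = (d g).natAbs.primeFactors := by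
    ext q
    unfold SS
    rw [mem_filter, Nat.mem_primeFactors_of_ne_zero (Int.natAbs_ne_zero.2 hsf.ne_zero),
      ← Int.natCast_dvd]
    constructor
    · rintro ⟨hq, hgq, hxq⟩
      have hqp := ((mem_PP h).1 (J_mem hq)).1
      refine ⟨hqp, ?_⟩
      have e : xx x q = x (some ⟨q, hq⟩) := xx_some x ⟨q, hq⟩
      rw [e, hx] at hxq
      simp only at hxq
      have hor : (q : ℤ) ∣ d 0 ∨ (q : ℤ) ∣ d 1 ∨ (q : ℤ) ∣ d 2 := by
        by_contra hcon
        rw [if_neg hcon] at hxq
        exact absurd hxq (by decide)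
      have n0 : gr b c q = 0 → ¬ (q : ℤ) ∣ d 0 := fun e hd => (hs q hqp 0 (by norm_num) hd).2 e
      have n1 : gr b c q = 1 → ¬ (q : ℤ) ∣ d 1 := fun e hd => (hs q hqp 1 (by norm_num) hd).2 e
      have n2 : gr b c q = 2 → ¬ (q : ℤ) ∣ d 2 := fun e hd => (hs q hqp 2 (by norm_num) hd).2 e
      have t0 := tri_two ht hqp
      have t2 := tri_two ht.r hqp
      have t1 := tri_two ht.r.r hqp
      rcases gr_spec h (J_mem hq) with ⟨g1, -⟩ | ⟨g1, -⟩ | ⟨g1, -⟩
      · have := n0 g1
        rw [g1] at hgq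
        interval_cases g
        · exact absurd rfl hgq
        · tauto
        · tauto
      · have := n1 g1
        rw [g1] at hgq
        interval_cases g
        · tauto
        · exact absurd rfl hgq
        · tauto
      · have := n2 g1
        rw [g1] at hgq
        interval_cases g
        · tauto
        · tauto
        · exact absurd rfl hgq
    · rintro ⟨hqp, hd⟩
      obtain ⟨hq, hgq⟩ := hs q hqp g hg hd
      refine ⟨hq, hgq, ?_⟩
      have e : xx x q = x (some ⟨q, hq⟩) := xx_some x ⟨q, hq⟩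
      rw [e, hx]
      simp only
      rw [if_pos]
      interval_cases g
      · exact Or.inl hd
      · exact Or.inr (Or.inl hd)
      · exact Or.inr (Or.inr hd)
  unfold DD
  rw [h1, h2]
  exact (sqf_eq hsf).symm

end Pool.Agent.K1H81.PS
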